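import Pool.Agent.H300.SM.Stm

/-!
# Assembly, discrete part
-/

set_option autoImplicit false

namespace Pool.Agent.H300.SM

open MeasureTheory Set Finset

/-- telescoping in both variables -/
theorem tele_i {n m : ℕ} {a : ℕ → ℕ → ℝ} (h0 : ∀ j, a 0 j = 0) (hn : ∀ j, a n j = 0) :
    ∑ i ∈ range n, ∑ j ∈ range m, (a (i + 1) j - a i j) = 0 := by
  rw [Finset.sum_comm]
  refine Finset.sum_eq_zero fun j _ => ?_
  rw [Finset.sum_range_sub (fun i => a i j), h0, hn, sub_zero]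

theorem tele_j {n m : ℕ} {a : ℕ → ℕ → ℝ} (h0 : ∀ i, a i 0 = 0) (hm : ∀ i, a i m = 0) :
    ∑ i ∈ range n, ∑ j ∈ range m, (a i (j + 1) - a i j) = 0 := by
  refine Finset.sum_eq_zero fun i _ => ?_
  rw [Finset.sum_range_sub (fun j => a i j), h0, hm, sub_zero]

theorem sum_dX {n m : ℕ} {u : ℕ → ℕ → ℝ} (hu : Zb n m u) :
    ∑ i ∈ range n, ∑ j ∈ range m, dX u i j = 0 :=
  tele_i (fun j => hu 0 j (Or.inl rfl)) (fun j => hu n j (Or.inr (Or.inl le_rfl)))

theorem sum_dY {n m : ℕ} {v : ℕ → ℕ → ℝ} (hv : Zb n m v) :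
    ∑ i ∈ range n, ∑ j ∈ range m, dY v i j = 0 :=
  tele_j (fun i => hv i 0 (Or.inr (Or.inr (Or.inl rfl))))
    (fun i => hv i m (Or.inr (Or.inr (Or.inr le_rfl))))

/-- the discrete null Lagrangian -/
theorem null_lag {n m : ℕ} {u v : ℕ → ℕ → ℝ} (hu : Zb n m u) (_hv : Zb n m v) :
    ∑ i ∈ range n, ∑ j ∈ range m, dX u i j * dY v i j
      = ∑ i ∈ range n, ∑ j ∈ range m, dZ u i j * dW v i j := by
  have e1 := tele_i (n := n) (m := m) (a := fun i j => u i j * v i j)
    (fun j => by simp [hu 0 j (Or.inl rfl)]) (fun j => by simp [hu n j (Or.inr (Or.inl le_rfl))])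
  have e2 := tele_j (n := n) (m := m) (a := fun i j => u (i + 1) j * v (i + 1) j)
    (fun i => by simp [hu (i + 1) 0 (Or.inr (Or.inr (Or.inl rfl)))])
    (fun i => by simp [hu (i + 1) m (Or.inr (Or.inr (Or.inr le_rfl)))])
  have e3 := tele_j (n := n) (m := m) (a := fun i j => u (i + 1) j * v i j)
    (fun i => by simp [hu (i + 1) 0 (Or.inr (Or.inr (Or.inl rfl)))])
    (fun i => by simp [hu (i + 1) m (Or.inr (Or.inr (Or.inr le_rfl)))])
  have e4 := tele_i (n := n) (m := m) (a := fun i j => u i j * v i (j + 1))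
    (fun j => by simp [hu 0 j (Or.inl rfl)]) (fun j => by simp [hu n j (Or.inr (Or.inl le_rfl))])
  rw [← sub_eq_zero, ← Finset.sum_sub_distrib]
  have key : ∑ i ∈ range n, (∑ j ∈ range m, dX u i j * dY v i j
      - ∑ j ∈ range m, dZ u i j * dW v i j)
      = -(∑ i ∈ range n, ∑ j ∈ range m, (u (i + 1) j * v (i + 1) j - u i j * v i j))
        - (∑ i ∈ range n, ∑ j ∈ range m, (u (i + 1) (j + 1) * v (i + 1) (j + 1)
            - u (i + 1) j * v (i + 1) j))
        + (∑ i ∈ range n, ∑ j ∈ range m, (u (i + 1) (j + 1) * v i (j + 1) - u (i + 1) j * v i j))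
        + (∑ i ∈ range n, ∑ j ∈ range m, (u (i + 1) j * v (i + 1) (j + 1) - u i j * v i (j + 1))) := by
    simp only [← Finset.sum_sub_distrib, ← Finset.sum_add_distrib, ← Finset.sum_neg_distrib]
    refine Finset.sum_congr rfl fun i _ => Finset.sum_congr rfl fun j _ => ?_
    simp only [dX, dY, dZ, dW]
    ring
  rw [key, e1, e2, e3, e4]
  norm_num

/-- the class: separately convex, mixed differences bounded by `K` and monotone in each variable -/
def SepC (ψ : ℝ → ℝ → ℝ) : Prop := SepConvex ψ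

/-- `|mixed difference| ≤ K area` -/
def MixedBound (ψ : ℝ → ℝ → ℝ) (K : ℝ) : Prop :=
  ∀ x x' y y', |ψ x' y' - ψ x' y - ψ x y' + ψ x y| ≤ K * |x' - x| * |y' - y|

/-- the monotone class -/
def Mono (ψ : ℝ → ℝ → ℝ) (K : ℝ) : Prop :=
  SepConvex ψ ∧ MixedBound ψ K ∧
  ((∀ y y', y ≤ y' → ConvexOn ℝ univ (fun x => ψ x y' - ψ x y)) ∨
    (∀ y y', y ≤ y' → ConcaveOn ℝ univ (fun x => ψ x y' - ψ x y))) ∧
  ((∀ x x', x ≤ x' → ConvexOn ℝ univ (fun y => ψ x' y - ψ x y)) ∨
    (∀ x x', x ≤ x' → ConcaveOn ℝ univ (fun y => ψ x' y - ψ x y)))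

/-- reflection of a convex function -/
theorem cvx_neg {f : ℝ → ℝ} (h : ConvexOn ℝ univ f) : ConvexOn ℝ univ (fun x => f (-x)) := by
  refine ⟨convex_univ, fun x _ y _ a b ha hb hab => ?_⟩
  have h1 := h.2 (mem_univ (-x)) (mem_univ (-y)) ha hb hab
  simp only [smul_eq_mul] at h1 ⊢
  have e : -(a * x + b * y) = a * -x + b * -y := by ring
  rw [e]
  exact h1

/-- adding a linear function -/
theorem cvx_add_lin {f : ℝ → ℝ} (h : ConvexOn ℝ univ f) (c : ℝ) :
    ConvexOn ℝ univ (fun x => f x + c * x) := by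
  refine ⟨convex_univ, fun x _ y _ a b ha hb hab => ?_⟩
  have h1 := h.2 (mem_univ x) (mem_univ y) ha hb hab
  simp only [smul_eq_mul] at h1 ⊢
  nlinarith

theorem mixed_nonneg {ψ : ℝ → ℝ → ℝ} {K : ℝ} (h : MixedBound ψ K) : 0 ≤ K := by
  have := h 0 1 0 1
  simp only [sub_zero, abs_one, mul_one] at this
  exact (abs_nonneg _).trans this

/-- the pattern (convex, convex) after adding `K x y` -/
theorem pp_of {ψ : ℝ → ℝ → ℝ} {K : ℝ} (_h1 : SepConvex ψ) (h2 : MixedBound ψ K)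
    (h3 : ∀ y y', y ≤ y' → ConvexOn ℝ univ (fun x => ψ x y' - ψ x y))
    (h4 : ∀ x x', x ≤ x' → ConvexOn ℝ univ (fun y => ψ x' y - ψ x y)) :
    PP (fun x y => ψ x y + K * x * y) (2 * K) := by
  refine ⟨fun x x' y y' hx hy => ?_, fun y y' hy => ?_, fun x x' hx => ?_⟩
  · have h := h2 x x' y y'
    rw [abs_of_nonneg (sub_nonneg.2 hx), abs_of_nonneg (sub_nonneg.2 hy)] at h
    obtain ⟨ha, hb⟩ := abs_le.1 h
    constructor
    · nlinarith
    · nlinarith
  · refine (cvx_add_lin (h3 y y' hy) (K * (y' - y))).congr fun x _ => ?_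
    ring
  · refine (cvx_add_lin (h4 x x' hx) (K * (x' - x))).congr fun y _ => ?_
    ring

/-- the symmetric discrete inequality -/
def DI (ψ : ℝ → ℝ → ℝ) (K : ℝ) : Prop := ∀ A B : ℝ,
  Disc (fun p => ψ (A + p.1) (B + p.2.1) - ψ A B + K / 2 * (p.2.2.1 ^ 2 + p.2.2.2 ^ 2))

theorem di_pp (hM : S_MONO) {ψ : ℝ → ℝ → ℝ} {K : ℝ} (h1 : SepConvex ψ) (h2 : MixedBound ψ K)
    (h3 : ∀ y y', y ≤ y' → ConvexOn ℝ univ (fun x => ψ x y' - ψ x y))
    (h4 : ∀ x x', x ≤ x' → ConvexOn ℝ univ (fun y => ψ x' y - ψ x y)) : DI ψ K := by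
  intro A B n m u v hu hv
  have hs : SepConvex (fun x y => ψ x y + K * x * y) := by
    refine ⟨fun y => ?_, fun x => ?_⟩
    · refine (cvx_add_lin (h1.1 y) (K * y)).congr fun x _ => ?_
      ring
    · exact cvx_add_lin (h1.2 x) (K * x)
  have h := hM _ _ hs (pp_of h1 h2 h3 h4) A B n m u v hu hv
  have e1 := sum_dX hu
  have e2 := sum_dY hv
  have e3 := null_lag hu hv
  have key : ∑ i ∈ range n, ∑ j ∈ range m,
      (ψ (A + dX u i j) (B + dY v i j) - ψ A B + K / 2 * (dZ u i j ^ 2 + dW v i j ^ 2))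
      = ∑ i ∈ range n, ∑ j ∈ range m,
        (ψ (A + dX u i j) (B + dY v i j) + K * (A + dX u i j) * (B + dY v i j)
          - (ψ A B + K * A * B) + 2 * K / 4 * (dZ u i j - dW v i j) ^ 2)
        - K * B * (∑ i ∈ range n, ∑ j ∈ range m, dX u i j)
        - K * A * (∑ i ∈ range n, ∑ j ∈ range m, dY v i j)
        - K * (∑ i ∈ range n, ∑ j ∈ range m, dX u i j * dY v i j)
        + K * (∑ i ∈ range n, ∑ j ∈ range m, dZ u i j * dW v i j) := by
    simp only [Finset.mul_sum, ← Finset.sum_sub_distrib, ← Finset.sum_add_distrib]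
    refine Finset.sum_congr rfl fun i _ => Finset.sum_congr rfl fun j _ => ?_
    ring
  simp only at h ⊢
  rw [key, e1, e2, e3]
  linarith

theorem zb_neg {n m : ℕ} {u : ℕ → ℕ → ℝ} (hu : Zb n m u) : Zb n m (fun i j => -u i j) :=
  fun i j h => by simp only [hu i j h, neg_zero]

/-- reflections -/
theorem di_refl_x {ψ : ℝ → ℝ → ℝ} {K : ℝ} (h : DI (fun x y => ψ (-x) y) K) : DI ψ K := by
  intro A B n m u v hu hv
  have h1 := h (-A) B n m (fun i j => -u i j) v (zb_neg hu) hv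
  simp only at h1 ⊢
  refine h1.trans (le_of_eq (Finset.sum_congr rfl fun i _ => Finset.sum_congr rfl fun j _ => ?_))
  have e1 : -(-A + dX (fun i j => -u i j) i j) = A + dX u i j := by
    simp only [dX]
    ring
  have e2 : dZ (fun i j => -u i j) i j ^ 2 = dZ u i j ^ 2 := by
    simp only [dZ]
    ring
  rw [e1, e2, neg_neg]

theorem di_refl_y {ψ : ℝ → ℝ → ℝ} {K : ℝ} (h : DI (fun x y => ψ x (-y)) K) : DI ψ K := by
  intro A B n m u v hu hv
  have h1 := h A (-B) n m u (fun i j => -v i j) hu (zb_neg hv)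
  simp only at h1 ⊢
  refine h1.trans (le_of_eq (Finset.sum_congr rfl fun i _ => Finset.sum_congr rfl fun j _ => ?_))
  have e1 : -(-B + dY (fun i j => -v i j) i j) = B + dY v i j := by
    simp only [dY]
    ring
  have e2 : dW (fun i j => -v i j) i j ^ 2 = dW v i j ^ 2 := by
    simp only [dW]
    ring
  rw [e1, e2, neg_neg]

/-- `SepConvex` and `MixedBound` under reflections -/
theorem sc_rx {ψ : ℝ → ℝ → ℝ} (h : SepConvex ψ) : SepConvex (fun x y => ψ (-x) y) :=
  ⟨fun y => cvx_neg (h.1 y), fun x => h.2 (-x)⟩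

theorem sc_ry {ψ : ℝ → ℝ → ℝ} (h : SepConvex ψ) : SepConvex (fun x y => ψ x (-y)) :=
  ⟨fun y => h.1 (-y), fun x => cvx_neg (h.2 x)⟩

theorem mb_rx {ψ : ℝ → ℝ → ℝ} {K : ℝ} (h : MixedBound ψ K) :
    MixedBound (fun x y => ψ (-x) y) K := by
  intro x x' y y'
  have h1 := h (-x) (-x') y y'
  have e : |-x' - -x| = |x' - x| := by rw [← abs_neg]; congr 1; ring
  rwa [e] at h1

theorem mb_ry {ψ : ℝ → ℝ → ℝ} {K : ℝ} (h : MixedBound ψ K) :
    MixedBound (fun x y => ψ x (-y)) K := by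
  intro x x' y y'
  have h1 := h x x' (-y) (-y')
  have e : |-y' - -y| = |y' - y| := by rw [← abs_neg]; congr 1; ring
  rwa [e] at h1

/-- the discrete inequality for the monotone class -/
theorem di_mono (hM : S_MONO) {ψ : ℝ → ℝ → ℝ} {K : ℝ} (h : Mono ψ K) : DI ψ K := by
  obtain ⟨h1, h2, h3, h4⟩ := h
  rcases h3 with h3 | h3 <;> rcases h4 with h4 | h4
  · exact di_pp hM h1 h2 h3 h4
  · -- c nondecreasing in x, nonincreasing in y: reflect x
    refine di_refl_x (di_pp hM (sc_rx h1) (mb_rx h2) (fun y y' hy => ?_) fun x x' hx => ?_)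
    · exact cvx_neg (h3 y y' hy)
    · have := (h4 (-x') (-x) (neg_le_neg hx)).neg
      refine this.congr fun y _ => ?_
      simp
  · -- c nonincreasing in x, nondecreasing in y: reflect y
    refine di_refl_y (di_pp hM (sc_ry h1) (mb_ry h2) (fun y y' hy => ?_) fun x x' hx => ?_)
    · have := (h3 (-y') (-y) (neg_le_neg hy)).neg
      refine this.congr fun x _ => ?_
      simp
    · exact cvx_neg (h4 x x' hx)
  · -- both nonincreasing: reflect both
    refine di_refl_x (di_refl_y (di_pp hM (sc_ry (sc_rx h1)) (mb_ry (mb_rx h2))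
      (fun y y' hy => ?_) fun x x' hx => ?_))
    · have := cvx_neg (h3 (-y') (-y) (neg_le_neg hy)).neg
      refine this.congr fun x _ => ?_
      simp
    · have := cvx_neg (h4 (-x') (-x) (neg_le_neg hx)).neg
      refine this.congr fun y _ => ?_
      simp

end Pool.Agent.H300.SM
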