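import Pool.Agent.H300.SM.Asm
import Pool.Graph.R_pool_sql_team_seeded_3997aac3.Q246.MM.Ex

/-!
# Passage to the continuum
-/

set_option autoImplicit false

namespace Pool.Agent.H300.SM

open MeasureTheory Set Finset

theorem grad_eq (ϑ : (Fin 2 → ℝ) → (Fin 2 → ℝ)) :
    grad ϑ = Pool.Agent.Helper188.Morrey.grad ϑ := rfl

theorem v_add (a : Fin 2 → ℝ) (p q r s : ℝ) :
    a + ![p, q] + ![r, s] = a + ![p + r, q + s] := by
  rw [add_assoc]
  congr 1
  ext l
  fin_cases l <;> rfl

/-- assembly of the passage to the continuum -/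
theorem t_CONT (hD : S_DQ) (hT : S_TILE) : S_CONT := by
  intro G hG hG0 hdisc Ω ϑ ht t ht0
  refine hD G hG hG0 Ω ϑ ht t ht0 fun h hh _ => ?_
  obtain ⟨-, hb, ⟨L, hL⟩, h0⟩ := ht
  have hk : 0 < t * h := mul_pos ht0 hh
  obtain ⟨C, hC⟩ := hb.subset_closedBall (0 : Fin 2 → ℝ)
  set R₀ : ℝ := max C 0 with hR₀
  have hz : ∀ x : Fin 2 → ℝ, (R₀ < |x 0| ∨ R₀ < |x 1|) → ϑ x = 0 := by
    intro x hx
    refine h0 x fun hxΩ => ?_
    have h1 : x ∈ Metric.closedBall (0 : Fin 2 → ℝ) C := hC hxΩ
    rw [mem_closedBall_zero_iff] at h1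
    have h2 : ∀ i, |x i| ≤ C := fun i => by
      have := norm_le_pi_norm x i
      rw [Real.norm_eq_abs] at this
      exact this.trans h1
    rcases hx with h | h
    · exact absurd (h2 0) (not_le.2 (lt_of_le_of_lt (le_max_left _ _) h))
    · exact absurd (h2 1) (not_le.2 (lt_of_le_of_lt (le_max_left _ _) h))
  have hR0 : 0 ≤ R₀ := le_max_right _ _
  have hcont : Continuous (fun x => G (dq ϑ h (t * h) x)) := by
    refine hG.comp ?_
    have hc := hL.continuous
    unfold dq
    refine Continuous.prodMk ?_ (Continuous.prodMk ?_ (Continuous.prodMk ?_ ?_)) <;> fun_prop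
  refine hT (fun x => G (dq ϑ h (t * h) x)) (R₀ + h + t * h + 1) h (t * h) hcont (by positivity) hh hk
    ?_ ?_
  · intro x hx
    have hv : ∀ a b : ℝ, (a = 0 ∨ a = h) → (b = 0 ∨ b = t * h) → ϑ (x + ![a, b]) = 0 := by
      intro a b ha hb
      refine hz _ ?_
      have ha' : |a| ≤ h := by
        rcases ha with rfl | rfl
        · simpa using hh.le
        · exact (abs_of_pos hh).le
      have hb' : |b| ≤ t * h := by
        rcases hb with rfl | rfl
        · simpa using hk.le
        · exact (abs_of_pos hk).le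
      rcases hx with hx | hx
      · left
        have e : (x + ![a, b]) 0 = x 0 + a := by simp
        rw [e]
        have := abs_sub_abs_le_abs_sub (x 0) (-a)
        rw [sub_neg_eq_add, abs_neg] at this
        linarith
      · right
        have e : (x + ![a, b]) 1 = x 1 + b := by simp
        rw [e]
        have := abs_sub_abs_le_abs_sub (x 1) (-b)
        rw [sub_neg_eq_add, abs_neg] at this
        linarith
    have e0 : x + ![0, 0] = x := by
      ext i
      fin_cases i <;> simp
    have h1 := hv 0 0 (Or.inl rfl) (Or.inl rfl)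
    rw [e0] at h1
    have h2 := hv h 0 (Or.inr rfl) (Or.inl rfl)
    have h3 := hv 0 (t * h) (Or.inl rfl) (Or.inr rfl)
    have h4 := hv h (t * h) (Or.inr rfl) (Or.inr rfl)
    have e : dq ϑ h (t * h) x = 0 := by
      unfold dq
      rw [h1, h2, h3, h4]
      simp
    simp only [e, hG0]
  · intro a n m ha0 ha1 hn hm
    set u : ℕ → ℕ → ℝ := fun i j => ϑ (a + ![i * h, j * (t * h)]) 0 / h with hu
    set v : ℕ → ℕ → ℝ := fun i j => ϑ (a + ![i * h, j * (t * h)]) 1 / (t * h) with hv
    have hvan : ∀ i j : ℕ, (i = 0 ∨ n ≤ i ∨ j = 0 ∨ m ≤ j) →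
        ϑ (a + ![i * h, j * (t * h)]) = 0 := by
      intro i j hij
      refine hz _ ?_
      have e0 : (a + ![(i : ℝ) * h, (j : ℝ) * (t * h)]) 0 = a 0 + i * h := by simp
      have e1 : (a + ![(i : ℝ) * h, (j : ℝ) * (t * h)]) 1 = a 1 + j * (t * h) := by simp
      rw [e0, e1]
      rcases hij with rfl | h' | rfl | h'
      · left
        rw [Nat.cast_zero, zero_mul, add_zero]
        have := neg_abs_le (a 0)
        have h5 : -(a 0) ≤ |a 0| := neg_le_abs _
        linarith
      · left
        have h6 : (n : ℝ) * h ≤ i * h := mul_le_mul_of_nonneg_right (by exact_mod_cast h') hh.le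
        have h5 := le_abs_self (a 0 + i * h)
        linarith
      · right
        rw [Nat.cast_zero, zero_mul, add_zero]
        have h5 : -(a 1) ≤ |a 1| := neg_le_abs _
        linarith
      · right
        have h6 : (m : ℝ) * (t * h) ≤ j * (t * h) :=
          mul_le_mul_of_nonneg_right (by exact_mod_cast h') hk.le
        have h5 := le_abs_self (a 1 + j * (t * h))
        linarith
    have hzu : Zb n m u := fun i j hij => by
      simp only [hu, hvan i j hij, Pi.zero_apply, zero_div]
    have hzv : Zb n m v := fun i j hij => by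
      simp only [hv, hvan i j hij, Pi.zero_apply, zero_div]
    have h7 := hdisc n m u v hzu hzv
    refine h7.trans (le_of_eq (Finset.sum_congr rfl fun i _ => Finset.sum_congr rfl fun j _ => ?_))
    congr 1
    have s1 : a + ![(i : ℝ) * h, (j : ℝ) * (t * h)] + ![h, 0]
        = a + ![((i + 1 : ℕ) : ℝ) * h, (j : ℝ) * (t * h)] := by
      rw [v_add, add_zero, Nat.cast_succ, add_mul, one_mul]
    have s2 : a + ![(i : ℝ) * h, (j : ℝ) * (t * h)] + ![0, t * h]
        = a + ![(i : ℝ) * h, ((j + 1 : ℕ) : ℝ) * (t * h)] := by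
      rw [v_add, add_zero, Nat.cast_succ, add_mul, one_mul]
    have s3 : a + ![(i : ℝ) * h, (j : ℝ) * (t * h)] + ![h, t * h]
        = a + ![((i + 1 : ℕ) : ℝ) * h, ((j + 1 : ℕ) : ℝ) * (t * h)] := by
      rw [v_add, Nat.cast_succ, Nat.cast_succ, add_mul, add_mul, one_mul, one_mul]
    simp only [dq, dX, dY, dZ, dW, s1, s2, s3, hu, hv, sub_div]

end Pool.Agent.H300.SM
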