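import Pool.Agent.H300.SM.Stm

set_option autoImplicit false

open Pool.Agent.H300.SM Finset MeasureTheory Filter Topology

namespace Pool.Agent.H962.SM

/-- the limit of the difference quotients -/
noncomputable def lq (t : ℝ) (ϑ : (Fin 2 → ℝ) → (Fin 2 → ℝ)) (x : Fin 2 → ℝ) : ℝ × ℝ × ℝ × ℝ :=
  (grad ϑ x 0 0, grad ϑ x 1 1, t * grad ϑ x 0 1, t⁻¹ * grad ϑ x 1 0)

lemma grad_apply (ϑ : (Fin 2 → ℝ) → (Fin 2 → ℝ)) (x : Fin 2 → ℝ) (i j : Fin 2) :
    grad ϑ x i j = fderiv ℝ ϑ x (Pi.single j 1) i := by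
  unfold grad
  rw [LinearMap.toMatrix'_apply]
  rfl

lemma vec0 : (![1, 0] : Fin 2 → ℝ) = Pi.single 0 1 := by
  funext i; fin_cases i <;> simp

lemma vec1 (t : ℝ) : (![0, t] : Fin 2 → ℝ) = t • Pi.single 1 1 := by
  funext i; fin_cases i <;> simp

lemma vec01 (t : ℝ) : (![1, t] : Fin 2 → ℝ) = Pi.single 0 1 + t • Pi.single 1 1 := by
  funext i; fin_cases i <;> simp

lemma vsm (c a b : ℝ) : c⁻¹ • (![a, b] : Fin 2 → ℝ) = ![c⁻¹ * a, c⁻¹ * b] := by
  funext i; fin_cases i <;> simp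

/-- (1) pointwise convergence -/
lemma dq_tendsto {ϑ : (Fin 2 → ℝ) → (Fin 2 → ℝ)} {x : Fin 2 → ℝ} (hx : DifferentiableAt ℝ ϑ x)
    {t : ℝ} (ht : 0 < t) :
    Tendsto (fun c : ℝ => dq ϑ c⁻¹ (t * c⁻¹) x) atTop (𝓝 (lq t ϑ x)) := by
  have hD := hx.hasFDerivAt
  obtain ⟨D, hDd⟩ : ∃ D, D = fderiv ℝ ϑ x := ⟨_, rfl⟩
  rw [← hDd] at hD
  have l1 := hD.lim_real ![1, 0]
  have l2 := hD.lim_real ![0, t]
  have l3 := hD.lim_real ![1, t]
  have c1 : ∀ i : Fin 2, Tendsto (fun c : ℝ => c * (ϑ (x + ![c⁻¹, 0]) i - ϑ x i)) atTop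
      (𝓝 (D (Pi.single 0 1) i)) := by
    intro i
    have h := (tendsto_pi_nhds.1 l1) i
    rw [vec0] at h
    refine h.congr fun c => ?_
    rw [← vec0, vsm, mul_one, mul_zero]
    rfl
  have c2 : ∀ i : Fin 2, Tendsto (fun c : ℝ => c * (ϑ (x + ![0, t * c⁻¹]) i - ϑ x i)) atTop
      (𝓝 (t * D (Pi.single 1 1) i)) := by
    intro i
    have h := (tendsto_pi_nhds.1 l2) i
    rw [vec1, map_smul] at h
    refine h.congr fun c => ?_
    rw [← vec1, vsm, mul_zero, mul_comm c⁻¹ t]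
    rfl
  have c3 : ∀ i : Fin 2, Tendsto (fun c : ℝ => c * (ϑ (x + ![c⁻¹, t * c⁻¹]) i - ϑ x i)) atTop
      (𝓝 (D (Pi.single 0 1) i + t * D (Pi.single 1 1) i)) := by
    intro i
    have h := (tendsto_pi_nhds.1 l3) i
    rw [vec01, map_add, map_smul] at h
    refine h.congr fun c => ?_
    rw [← vec01, vsm, mul_one, mul_comm c⁻¹ t]
    rfl
  have hpos : ∀ᶠ c : ℝ in atTop, c ≠ 0 := by
    filter_upwards [eventually_gt_atTop (0 : ℝ)] with c hc
    exact hc.ne'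
  have e1 : Tendsto (fun c : ℝ => (ϑ (x + ![c⁻¹, 0]) 0 - ϑ x 0) / c⁻¹) atTop
      (𝓝 (grad ϑ x 0 0)) := by
    rw [grad_apply, ← hDd]
    refine (c1 0).congr' ?_
    filter_upwards [hpos] with c hc
    rw [div_inv_eq_mul, mul_comm]
  have e2 : Tendsto (fun c : ℝ => (ϑ (x + ![0, t * c⁻¹]) 1 - ϑ x 1) / (t * c⁻¹)) atTop
      (𝓝 (grad ϑ x 1 1)) := by
    rw [grad_apply, ← hDd]
    have h := (c2 1).const_mul t⁻¹
    rw [← mul_assoc, inv_mul_cancel₀ ht.ne', one_mul] at h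
    refine h.congr' ?_
    filter_upwards [hpos] with c hc
    field_simp
  have e3 : Tendsto (fun c : ℝ => (ϑ (x + ![c⁻¹, t * c⁻¹]) 0 - ϑ (x + ![c⁻¹, 0]) 0) / c⁻¹) atTop
      (𝓝 (t * grad ϑ x 0 1)) := by
    rw [grad_apply, ← hDd]
    have h := (c3 0).sub (c1 0)
    rw [add_sub_cancel_left] at h
    refine h.congr' ?_
    filter_upwards [hpos] with c hc
    rw [div_inv_eq_mul]
    ring
  have e4 : Tendsto (fun c : ℝ => (ϑ (x + ![c⁻¹, t * c⁻¹]) 1 - ϑ (x + ![0, t * c⁻¹]) 1)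
      / (t * c⁻¹)) atTop (𝓝 (t⁻¹ * grad ϑ x 1 0)) := by
    rw [grad_apply, ← hDd]
    have h := ((c3 1).sub (c2 1)).const_mul t⁻¹
    rw [add_sub_cancel_right] at h
    refine h.congr' ?_
    filter_upwards [hpos] with c hc
    field_simp
    ring
  exact e1.prodMk_nhds (e2.prodMk_nhds (e3.prodMk_nhds e4))

/-- (3) the derivative vanishes almost everywhere off `Ω` -/
lemma ae_zero {Ω : Set (Fin 2 → ℝ)} {ϑ : (Fin 2 → ℝ) → (Fin 2 → ℝ)} (h : Test Ω ϑ) :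
    ∀ᵐ x : Fin 2 → ℝ, x ∉ Ω → fderiv ℝ ϑ x = 0 := by
  obtain ⟨hO, hB, ⟨K, hK⟩, h0⟩ := h
  have hd : ∀ᵐ x : Fin 2 → ℝ, DifferentiableAt ℝ ϑ x := hK.ae_differentiableAt
  obtain ⟨s, hs⟩ : ∃ s : Set (Fin 2 → ℝ), s = Ωᶜ ∩ {x | DifferentiableAt ℝ ϑ x} := ⟨_, rfl⟩
  have hsm : MeasurableSet s := by
    rw [hs]
    exact hO.measurableSet.compl.inter (measurableSet_of_differentiableAt ℝ ϑ)
  have ha : ApproximatesLinearOn ϑ (0 : (Fin 2 → ℝ) →L[ℝ] (Fin 2 → ℝ)) s 0 := by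
    intro x hx y hy
    rw [hs] at hx hy
    have e1 : ϑ x = 0 := h0 x hx.1
    have e2 : ϑ y = 0 := h0 y hy.1
    simp [e1, e2]
  have hae := ha.norm_fderiv_sub_le (volume : Measure (Fin 2 → ℝ)) hsm (fun x => fderiv ℝ ϑ x)
    (fun x hx => by
      rw [hs] at hx
      exact (hx.2 : DifferentiableAt ℝ ϑ x).hasFDerivAt.hasFDerivWithinAt)
  rw [ae_restrict_iff' hsm] at hae
  filter_upwards [hd, hae] with x hx1 hx2 hx3
  have h4 := hx2 (by rw [hs]; exact ⟨hx3, hx1⟩)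
  rw [sub_zero] at h4
  exact nnnorm_eq_zero.1 (le_antisymm h4 zero_le)

/-- (2) bound of the difference quotients -/
lemma dq_bound {ϑ : (Fin 2 → ℝ) → (Fin 2 → ℝ)} {K : NNReal} (hK : LipschitzWith K ϑ) {t h : ℝ}
    (ht : 0 < t) (hh : 0 < h) (x : Fin 2 → ℝ) :
    ‖dq ϑ h (t * h) x‖ ≤ K * (1 + t + t⁻¹) := by
  have hK0 : (0 : ℝ) ≤ K := K.coe_nonneg
  have hti : 0 < t⁻¹ := inv_pos.2 ht
  have hL : ∀ (y z : Fin 2 → ℝ) (i : Fin 2), |ϑ y i - ϑ z i| ≤ K * ‖y - z‖ := by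
    intro y z i
    have h1 := hK.norm_sub_le y z
    have h2 := norm_le_pi_norm (ϑ y - ϑ z) i
    rw [Pi.sub_apply, Real.norm_eq_abs] at h2
    exact h2.trans h1
  have n1 : ∀ a : ℝ, 0 ≤ a → ‖(![a, 0] : Fin 2 → ℝ)‖ ≤ a := by
    intro a ha
    rw [pi_norm_le_iff_of_nonneg ha]
    intro i
    fin_cases i <;> simp [abs_of_nonneg ha, ha]
  have n2 : ∀ a : ℝ, 0 ≤ a → ‖(![0, a] : Fin 2 → ℝ)‖ ≤ a := by
    intro a ha
    rw [pi_norm_le_iff_of_nonneg ha]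
    intro i
    fin_cases i <;> simp [abs_of_nonneg ha, ha]
  have hth : 0 < t * h := mul_pos ht hh
  have hC : 0 ≤ (K : ℝ) * (1 + t + t⁻¹) := by positivity
  have b1 : ‖(ϑ (x + ![h, 0]) 0 - ϑ x 0) / h‖ ≤ K * (1 + t + t⁻¹) := by
    rw [norm_div, Real.norm_eq_abs, Real.norm_eq_abs, abs_of_pos hh, div_le_iff₀ hh]
    refine (hL _ _ _).trans ?_
    rw [add_sub_cancel_left]
    have := n1 h hh.le
    calc (K : ℝ) * ‖(![h, 0] : Fin 2 → ℝ)‖ ≤ K * h := mul_le_mul_of_nonneg_left this hK0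
      _ ≤ K * (1 + t + t⁻¹) * h := by
        refine mul_le_mul_of_nonneg_right ?_ hh.le
        nlinarith
  have b2 : ‖(ϑ (x + ![0, t * h]) 1 - ϑ x 1) / (t * h)‖ ≤ K * (1 + t + t⁻¹) := by
    rw [norm_div, Real.norm_eq_abs, Real.norm_eq_abs, abs_of_pos hth, div_le_iff₀ hth]
    refine (hL _ _ _).trans ?_
    rw [add_sub_cancel_left]
    have := n2 (t * h) hth.le
    calc (K : ℝ) * ‖(![0, t * h] : Fin 2 → ℝ)‖ ≤ K * (t * h) := mul_le_mul_of_nonneg_left this hK0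
      _ ≤ K * (1 + t + t⁻¹) * (t * h) := by
        refine mul_le_mul_of_nonneg_right ?_ hth.le
        nlinarith
  have b3 : ‖(ϑ (x + ![h, t * h]) 0 - ϑ (x + ![h, 0]) 0) / h‖ ≤ K * (1 + t + t⁻¹) := by
    rw [norm_div, Real.norm_eq_abs, Real.norm_eq_abs, abs_of_pos hh, div_le_iff₀ hh]
    refine (hL _ _ _).trans ?_
    have e : x + ![h, t * h] - (x + ![h, 0]) = ![0, t * h] := by
      funext i; fin_cases i <;> simp
    rw [e]
    have := n2 (t * h) hth.le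
    calc (K : ℝ) * ‖(![0, t * h] : Fin 2 → ℝ)‖ ≤ K * (t * h) := mul_le_mul_of_nonneg_left this hK0
      _ = K * t * h := by ring
      _ ≤ K * (1 + t + t⁻¹) * h := by
        refine mul_le_mul_of_nonneg_right ?_ hh.le
        nlinarith
  have b4 : ‖(ϑ (x + ![h, t * h]) 1 - ϑ (x + ![0, t * h]) 1) / (t * h)‖
      ≤ K * (1 + t + t⁻¹) := by
    rw [norm_div, Real.norm_eq_abs, Real.norm_eq_abs, abs_of_pos hth, div_le_iff₀ hth]
    refine (hL _ _ _).trans ?_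
    have e : x + ![h, t * h] - (x + ![0, t * h]) = ![h, 0] := by
      funext i; fin_cases i <;> simp
    rw [e]
    have := n1 h hh.le
    calc (K : ℝ) * ‖(![h, 0] : Fin 2 → ℝ)‖ ≤ K * h := mul_le_mul_of_nonneg_left this hK0
      _ = K * t⁻¹ * (t * h) := by field_simp
      _ ≤ K * (1 + t + t⁻¹) * (t * h) := by
        refine mul_le_mul_of_nonneg_right ?_ hth.le
        nlinarith
  unfold dq
  rw [Prod.norm_def, Prod.norm_def, Prod.norm_def]
  exact max_le b1 (max_le b2 (max_le b3 b4))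

/-- (2) the difference quotients vanish far away -/
lemma dq_zero {Ω : Set (Fin 2 → ℝ)} {ϑ : (Fin 2 → ℝ) → (Fin 2 → ℝ)} (h0 : ∀ x, x ∉ Ω → ϑ x = 0)
    {R : ℝ} (hR : Ω ⊆ Metric.closedBall 0 R) {t h : ℝ} (ht : 0 < t) (hh : 0 < h) (hh1 : h < 1)
    {x : Fin 2 → ℝ} (hx : R + (1 + t) < ‖x‖) : dq ϑ h (t * h) x = 0 := by
  have hth : 0 < t * h := mul_pos ht hh
  have hz : ∀ a b : ℝ, |a| ≤ 1 + t → |b| ≤ 1 + t → ϑ (x + ![a, b]) = 0 := by
    intro a b ha hb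
    refine h0 _ fun hm => ?_
    have h1 := hR hm
    rw [Metric.mem_closedBall, dist_zero_right] at h1
    have h2 : ‖(![a, b] : Fin 2 → ℝ)‖ ≤ 1 + t := by
      rw [pi_norm_le_iff_of_nonneg (by linarith)]
      intro i
      fin_cases i
      · exact ha
      · exact hb
    have h3 : ‖x‖ ≤ ‖x + ![a, b]‖ + ‖(![a, b] : Fin 2 → ℝ)‖ := by
      have := norm_sub_le (x + ![a, b]) ![a, b]
      rwa [add_sub_cancel_right] at this
    linarith
  have hz0 : ϑ x = 0 := by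
    refine h0 _ fun hm => ?_
    have h1 := hR hm
    rw [Metric.mem_closedBall, dist_zero_right] at h1
    linarith
  have a1 : |h| ≤ 1 + t := by rw [abs_of_pos hh]; linarith
  have a2 : |t * h| ≤ 1 + t := by
    rw [abs_of_pos hth]
    nlinarith
  have a3 : |(0 : ℝ)| ≤ 1 + t := by rw [abs_zero]; linarith
  unfold dq
  rw [hz h 0 a1 a3, hz 0 (t * h) a3 a2, hz h (t * h) a1 a2, hz0]
  simp

lemma dq_cont {ϑ : (Fin 2 → ℝ) → (Fin 2 → ℝ)} (hc : Continuous ϑ) (h k : ℝ) :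
    Continuous fun x => dq ϑ h k x := by
  unfold dq
  have h1 : ∀ (w : Fin 2 → ℝ) (i : Fin 2), Continuous fun x => ϑ (x + w) i := by
    intro w i
    exact (continuous_apply i).comp (hc.comp (continuous_id.add continuous_const))
  have h2 : ∀ i : Fin 2, Continuous fun x => ϑ x i := fun i => (continuous_apply i).comp hc
  exact (((h1 _ _).sub (h2 _)).div_const _).prodMk ((((h1 _ _).sub (h2 _)).div_const _).prodMk
    ((((h1 _ _).sub (h1 _ _)).div_const _).prodMk (((h1 _ _).sub (h1 _ _)).div_const _)))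

theorem t_DQ : S_DQ := by
  intro G hG hG0 Ω ϑ hT t ht hpos
  obtain ⟨hO, hB, ⟨K, hK⟩, h0⟩ := hT
  obtain ⟨R, hR⟩ := hB.subset_closedBall 0
  obtain ⟨C, hC⟩ : ∃ C : ℝ, C = K * (1 + t + t⁻¹) := ⟨_, rfl⟩
  obtain ⟨M, hM⟩ := (isCompact_closedBall (0 : ℝ × ℝ × ℝ × ℝ) C).exists_bound_of_continuousOn
    hG.continuousOn
  obtain ⟨c, hc⟩ : ∃ c : ℕ → ℝ, c = fun n : ℕ => (n : ℝ) + 2 := ⟨_, rfl⟩
  have hc2 : ∀ n, 2 ≤ c n := fun n => by
    rw [hc]
    have : (0 : ℝ) ≤ n := Nat.cast_nonneg n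
    simp only
    linarith
  have hct : Tendsto c atTop atTop := by
    rw [hc]
    exact tendsto_atTop_add_const_right _ _ tendsto_natCast_atTop_atTop
  have hci : ∀ n, 0 < (c n)⁻¹ ∧ (c n)⁻¹ < 1 := fun n => by
    have := hc2 n
    exact ⟨by positivity, inv_lt_one_of_one_lt₀ (by linarith)⟩
  have hlim : Tendsto (fun n => ∫ x, G (dq ϑ (c n)⁻¹ (t * (c n)⁻¹) x)) atTop
      (𝓝 (∫ x, G (lq t ϑ x))) := by
    refine tendsto_integral_of_dominated_convergence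
      ((Metric.closedBall (0 : Fin 2 → ℝ) (R + (1 + t))).indicator fun _ => M) ?_ ?_ ?_ ?_
    · intro n
      exact (hG.comp (dq_cont hK.continuous _ _)).aestronglyMeasurable
    · refine (integrable_indicator_iff Metric.isClosed_closedBall.measurableSet).2 ?_
      exact integrableOn_const (measure_closedBall_lt_top.ne)
    · intro n
      refine Eventually.of_forall fun x => ?_
      by_cases hx : x ∈ Metric.closedBall (0 : Fin 2 → ℝ) (R + (1 + t))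
      · rw [Set.indicator_of_mem hx]
        refine hM _ ?_
        rw [Metric.mem_closedBall, dist_zero_right, hC]
        exact dq_bound hK ht (hci n).1 x
      · rw [Set.indicator_of_notMem hx]
        rw [Metric.mem_closedBall, dist_zero_right, not_le] at hx
        rw [dq_zero h0 hR ht (hci n).1 (hci n).2 hx, hG0, norm_zero]
    · have hd : ∀ᵐ x : Fin 2 → ℝ, DifferentiableAt ℝ ϑ x := hK.ae_differentiableAt
      filter_upwards [hd] with x hx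
      exact (hG.tendsto _).comp ((dq_tendsto hx ht).comp hct)
  have hge : 0 ≤ ∫ x, G (lq t ϑ x) :=
    ge_of_tendsto' hlim fun n => hpos _ (hci n).1 (hci n).2
  have hset : ∫ x in Ω, G (lq t ϑ x) = ∫ x, G (lq t ϑ x) := by
    refine setIntegral_eq_integral_of_ae_compl_eq_zero ?_
    filter_upwards [ae_zero ⟨hO, hB, ⟨K, hK⟩, h0⟩] with x hx hxO
    have h1 := hx hxO
    have h2 : lq t ϑ x = 0 := by
      unfold lq
      rw [grad_apply, grad_apply, grad_apply, grad_apply, h1]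
      simp
    rw [h2, hG0]
  rw [← hset] at hge
  exact hge

end Pool.Agent.H962.SM
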