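import Pool.Agent.H300.SM.Fin

/-!
# Products of convex functions; an example which is not polyconvex
-/

set_option autoImplicit false

namespace Pool.Agent.H300.SM

open MeasureTheory Set Finset Filter Topology

theorem cvx_smul {f : ℝ → ℝ} (h : ConvexOn ℝ univ f) {c : ℝ} (hc : 0 ≤ c) :
    ConvexOn ℝ univ (fun x => c * f x) := by
  refine ⟨convex_univ, fun x _ y _ a b ha hb hab => ?_⟩
  have h1 := h.2 (mem_univ x) (mem_univ y) ha hb hab
  simp only [smul_eq_mul] at h1 ⊢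
  calc c * f (a * x + b * y) ≤ c * (a * f x + b * f y) := mul_le_mul_of_nonneg_left h1 hc
    _ = _ := by ring

/-- products -/
theorem mono_prod {P Q : ℝ → ℝ} {c K : ℝ} (hP : ConvexOn ℝ univ P) (hQ : ConvexOn ℝ univ Q)
    (hP0 : ∀ x, 0 ≤ P x) (hQ0 : ∀ x, 0 ≤ Q x) (hPm : Monotone P ∨ Antitone P)
    (hQm : Monotone Q ∨ Antitone Q)
    (hb : ∀ x x' y y', |(P x' - P x) * (Q y' - Q y) + c * (x' - x) * (y' - y)|
      ≤ K * |x' - x| * |y' - y|) :
    Mono (fun x y => P x * Q y + c * x * y) K := by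
  refine ⟨⟨fun y => ?_, fun x => ?_⟩, fun x x' y y' => ?_, ?_, ?_⟩
  · refine (cvx_add_lin (cvx_smul hP (hQ0 y)) (c * y)).congr fun x _ => ?_
    ring
  · refine (cvx_add_lin (cvx_smul hQ (hP0 x)) (c * x)).congr fun y _ => ?_
    ring
  · refine le_trans (le_of_eq ?_) (hb x x' y y')
    congr 1
    ring
  · rcases hQm with h | h
    · left
      intro y y' hy
      refine (cvx_add_lin (cvx_smul hP (sub_nonneg.2 (h hy))) (c * (y' - y))).congr fun x _ => ?_
      ring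
    · right
      intro y y' hy
      refine ((cvx_add_lin (cvx_smul hP (sub_nonneg.2 (h hy))) (-(c * (y' - y)))).neg).congr
        fun x _ => ?_
      simp only [Pi.neg_apply]
      ring
  · rcases hPm with h | h
    · left
      intro y y' hy
      refine (cvx_add_lin (cvx_smul hQ (sub_nonneg.2 (h hy))) (c * (y' - y))).congr fun x _ => ?_
      ring
    · right
      intro y y' hy
      refine ((cvx_add_lin (cvx_smul hQ (sub_nonneg.2 (h hy))) (-(c * (y' - y)))).neg).congr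
        fun x _ => ?_
      simp only [Pi.neg_apply]
      ring

/-- the positive part of an affine function -/
theorem cvx_pos (a b : ℝ) : ConvexOn ℝ univ (fun x : ℝ => max (a + b * x) 0) := by
  refine ConvexOn.sup ?_ (convexOn_const 0 convex_univ)
  refine ⟨convex_univ, fun x _ y _ s t hs ht hst => ?_⟩
  simp only [smul_eq_mul]
  have : a = (s + t) * a := by rw [hst, one_mul]
  nlinarith

theorem mono_pos (a b : ℝ) : Monotone (fun x : ℝ => max (a + b * x) 0) ∨
    Antitone (fun x : ℝ => max (a + b * x) 0) := by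
  rcases le_total 0 b with h | h
  · left
    intro x y hxy
    exact max_le_max (by nlinarith) le_rfl
  · right
    intro x y hxy
    exact max_le_max (by nlinarith) le_rfl

theorem lip_pos (a b x x' : ℝ) : |max (a + b * x') 0 - max (a + b * x) 0| ≤ |b| * |x' - x| := by
  have h := abs_max_sub_max_le_abs (a + b * x') (a + b * x) 0
  have e : a + b * x' - (a + b * x) = b * (x' - x) := by ring
  rw [e, abs_mul] at h
  exact h

/-- a supporting line -/
theorem exists_supp {f : ℝ → ℝ} (hf : ConvexOn ℝ univ f) (A : ℝ) :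
    ∃ σ : ℝ, ∀ x, f A + σ * (x - A) ≤ f x := by
  have hA : A ∈ interior (univ : Set ℝ) := by simp
  refine ⟨derivWithin f (Ioi A) A, fun x => ?_⟩
  rcases lt_trichotomy x A with h | h | h
  · have h1 := hf.slope_le_leftDeriv_of_mem_interior (mem_univ x) hA h
    have h2 := h1.trans (hf.leftDeriv_le_rightDeriv_of_mem_interior hA)
    rw [slope_def_field, div_le_iff₀ (sub_pos.2 h)] at h2
    linarith
  · rw [h]
    simp
  · have h1 := hf.rightDeriv_le_slope_of_mem_interior hA (mem_univ x) h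
    rw [slope_def_field, le_div_iff₀ (sub_pos.2 h)] at h1
    linarith

/-- products of nonnegative convex Lipschitz functions are supported -/
theorem supp_prod {P Q : ℝ → ℝ} {L M : ℝ} (hP : ConvexOn ℝ univ P) (hQ : ConvexOn ℝ univ Q)
    (hP0 : ∀ x, 0 ≤ P x) (hQ0 : ∀ x, 0 ≤ Q x)
    (hPL : ∀ x x', |P x' - P x| ≤ L * |x' - x|) (hQM : ∀ x x', |Q x' - Q x| ≤ M * |x' - x|) :
    Supp (fun x y => P x * Q y) (L * M) := by
  have slope : ∀ (f : ℝ → ℝ) (C : ℝ), ConvexOn ℝ univ f → (∀ x x', |f x' - f x| ≤ C * |x' - x|) →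
      ∀ A : ℝ, ∃ σ : ℝ, |σ| ≤ C ∧ ∀ x, f A + σ * (x - A) ≤ f x := by
    intro f C hf hC A
    obtain ⟨σ, hσ⟩ := exists_supp hf A
    refine ⟨σ, abs_le.2 ⟨?_, ?_⟩, hσ⟩
    · have h1 := hσ (A - 1)
      have h2 := (abs_le.1 (hC A (A - 1))).2
      have e : |A - 1 - A| = 1 := by norm_num
      rw [e] at h2
      linarith
    · have h1 := hσ (A + 1)
      have h2 := (abs_le.1 (hC A (A + 1))).2
      have e : |A + 1 - A| = 1 := by norm_num
      rw [e] at h2
      linarith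
  intro A B
  obtain ⟨σ, hσ1, hσ⟩ := slope P L hP hPL A
  obtain ⟨τ, hτ1, hτ⟩ := slope Q M hQ hQM B
  have hM0 : 0 ≤ M := (abs_nonneg _).trans hτ1
  set p : ℝ → ℝ := fun x => max (P A - σ * A + σ * x) 0 with hp
  set q : ℝ → ℝ := fun x => max (Q B - τ * B + τ * x) 0 with hq
  have hm := mono_prod (P := p) (Q := q) (c := 0) (K := |σ| * |τ|) (cvx_pos _ _) (cvx_pos _ _)
    (fun x => le_max_right _ _) (fun x => le_max_right _ _) (mono_pos _ _) (mono_pos _ _)
    (fun x x' y y' => by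
      rw [zero_mul, zero_mul, add_zero, abs_mul]
      calc |p x' - p x| * |q y' - q y| ≤ (|σ| * |x' - x|) * (|τ| * |y' - y|) :=
            mul_le_mul (lip_pos _ _ _ _) (lip_pos _ _ _ _) (abs_nonneg _) (by positivity)
        _ = |σ| * |τ| * |x' - x| * |y' - y| := by ring)
  refine ⟨1, fun _ => fun x y => p x * q y + 0 * x * y, fun _ => |σ| * |τ|, fun _ => hm, ?_, ?_, ?_⟩
  · simp only [Finset.univ_unique, Finset.sum_const, Finset.card_singleton, one_smul]
    exact mul_le_mul hσ1 hτ1 (abs_nonneg _) ((abs_nonneg _).trans hσ1)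
  · intro x y
    simp only [Finset.univ_unique, Finset.sum_const, Finset.card_singleton, one_smul, zero_mul,
      add_zero]
    refine mul_le_mul ?_ ?_ (le_max_right _ _) (hP0 x)
    · exact max_le (by have := hσ x; linarith) (hP0 x)
    · exact max_le (by have := hτ y; linarith) (hQ0 y)
  · simp only [Finset.univ_unique, Finset.sum_const, Finset.card_singleton, one_smul, zero_mul,
      add_zero, hp, hq]
    rw [sub_add_cancel, sub_add_cancel, max_eq_left (hP0 A), max_eq_left (hQ0 B)]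

/-- the example -/
noncomputable def ex0 (x y : ℝ) : ℝ := max x 0 * max y 0 - 1 / 2 * x * y

theorem mono_ex0 : Mono ex0 (1 / 2) := by
  have e : ex0 = fun x y => max (0 + 1 * x) 0 * max (0 + 1 * y) 0 + -(1 / 2) * x * y := by
    funext x y
    simp only [ex0, zero_add, one_mul]
    ring
  rw [e]
  refine mono_prod (cvx_pos _ _) (cvx_pos _ _) (fun x => le_max_right _ _)
    (fun x => le_max_right _ _) (mono_pos _ _) (mono_pos _ _) fun x x' y y' => ?_
  have key : ∀ x x' : ℝ, ∃ c : ℝ, 0 ≤ c ∧ c ≤ 1 ∧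
      max (0 + 1 * x') 0 - max (0 + 1 * x) 0 = c * (x' - x) := by
    intro x x'
    by_cases h : x' = x
    · exact ⟨0, le_rfl, zero_le_one, by rw [h]; ring⟩
    have hne : x' - x ≠ 0 := sub_ne_zero.2 h
    refine ⟨(max (0 + 1 * x') 0 - max (0 + 1 * x) 0) / (x' - x), ?_, ?_, by field_simp⟩
    · rcases lt_or_gt_of_ne h with h | h
      · refine div_nonneg_of_nonpos ?_ (by linarith)
        have : max (0 + 1 * x') 0 ≤ max (0 + 1 * x) 0 := max_le_max (by linarith) le_rfl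
        linarith
      · refine div_nonneg ?_ (by linarith)
        have : max (0 + 1 * x) 0 ≤ max (0 + 1 * x') 0 := max_le_max (by linarith) le_rfl
        linarith
    · have h0 := lip_pos 0 1 x x'
      rw [abs_one] at h0
      have h1 := h0.trans (le_of_eq (one_mul |x' - x|))
      have h2 := abs_div (max (0 + 1 * x') 0 - max (0 + 1 * x) 0) (x' - x)
      refine (le_abs_self _).trans ?_
      rw [h2]
      exact div_le_one_of_le₀ h1 (abs_nonneg _)
  obtain ⟨c, hc0, hc1, hc⟩ := key x x'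
  obtain ⟨d, hd0, hd1, hd⟩ := key y y'
  rw [hc, hd]
  have e2 : c * (x' - x) * (d * (y' - y)) + -(1 / 2) * (x' - x) * (y' - y)
      = (c * d - 1 / 2) * (x' - x) * (y' - y) := by ring
  rw [e2, abs_mul, abs_mul]
  have h3 : |c * d - 1 / 2| ≤ 1 / 2 := by
    rw [abs_le]
    constructor
    · nlinarith [mul_nonneg hc0 hd0]
    · nlinarith
  exact mul_le_mul_of_nonneg_right (mul_le_mul_of_nonneg_right h3 (abs_nonneg _)) (abs_nonneg _)

open Pool.Agent.Q246.MM (W4) in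
theorem not_poly0 : ¬ Pool.Agent.Q246.MM.Polyconvex (W4 ex0 0 0 (1 / 4) (1 / 4)) := by
  rintro ⟨g, -, hg, hW⟩
  set A : Matrix (Fin 2) (Fin 2) ℝ := !![-2, 0; 0, -2] with hA
  set B : Matrix (Fin 2) (Fin 2) ℝ := !![6, 0; 0, 0] with hB
  set C : Matrix (Fin 2) (Fin 2) ℝ := !![0, 0; 0, 6] with hC
  set I : Matrix (Fin 2) (Fin 2) ℝ := !![1, 0; 0, 1] with hI
  have v0 : W4 ex0 0 0 (1 / 4) (1 / 4) 0 = 0 := by
    simp [W4, ex0]
  have vA : W4 ex0 0 0 (1 / 4) (1 / 4) A = -2 := by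
    simp [W4, ex0, hA]
  have vB : W4 ex0 0 0 (1 / 4) (1 / 4) B = 0 := by
    simp [W4, ex0, hB]
  have vC : W4 ex0 0 0 (1 / 4) (1 / 4) C = 0 := by
    simp [W4, ex0, hC]
  have vI : W4 ex0 0 0 (1 / 4) (1 / 4) I = 1 / 2 := by
    simp [W4, ex0, hI]
    norm_num
  have w0 := hW 0
  have wA := hW A
  have wB := hW B
  have wC := hW C
  have wI := hW I
  have dA : A.det = 4 := by
    simp [hA, Matrix.det_fin_two]
    norm_num
  have dB : B.det = 0 := by simp [hB, Matrix.det_fin_two]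
  have dC : C.det = 0 := by simp [hC, Matrix.det_fin_two]
  have dI : I.det = 1 := by simp [hI, Matrix.det_fin_two]
  rw [v0, Matrix.det_zero] at w0
  rw [vA, dA] at wA
  rw [vB, dB] at wB
  rw [vC, dC] at wC
  rw [vI, dI] at wI
  have c1 := hg (A, (4 : ℝ)) (0, (0 : ℝ)) (1 / 2) (1 / 2) (by norm_num) (by norm_num)
    (by norm_num)
  have c2 := hg (B, (0 : ℝ)) (C, (0 : ℝ)) (1 / 2) (1 / 2) (by norm_num) (by norm_num)
    (by norm_num)
  rw [← wA, ← w0] at c1
  rw [← wB, ← wC] at c2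
  have c3 := hg ((1 / 2 : ℝ) • (A, (4 : ℝ)) + (1 / 2 : ℝ) • ((0 : Matrix (Fin 2) (Fin 2) ℝ), (0 : ℝ)))
    ((1 / 2 : ℝ) • (B, (0 : ℝ)) + (1 / 2 : ℝ) • (C, (0 : ℝ))) (1 / 2) (1 / 2)
    (by norm_num) (by norm_num) (by norm_num)
  have e3 : (1 / 2 : ℝ) • ((1 / 2 : ℝ) • (A, (4 : ℝ))
      + (1 / 2 : ℝ) • ((0 : Matrix (Fin 2) (Fin 2) ℝ), (0 : ℝ)))
      + (1 / 2 : ℝ) • ((1 / 2 : ℝ) • (B, (0 : ℝ)) + (1 / 2 : ℝ) • (C, (0 : ℝ))) = (I, 1) := by
    refine Prod.ext ?_ ?_
    · ext i j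
      fin_cases i <;> fin_cases j <;> simp [hA, hB, hC, hI] <;> norm_num
    · simp
      norm_num
  rw [e3, ← wI] at c3
  rw [← EReal.coe_mul, ← EReal.coe_mul, ← EReal.coe_add] at c1
  rw [← EReal.coe_mul, ← EReal.coe_add] at c2
  have c4 : (((1 / 2 : ℝ)) : EReal) * g ((1 / 2 : ℝ) • (A, (4 : ℝ))
      + (1 / 2 : ℝ) • ((0 : Matrix (Fin 2) (Fin 2) ℝ), (0 : ℝ)))
      + ((1 / 2 : ℝ) : EReal) * g ((1 / 2 : ℝ) • (B, (0 : ℝ)) + (1 / 2 : ℝ) • (C, (0 : ℝ)))
      ≤ ((1 / 2 : ℝ) : EReal) * ((1 / 2 * -2 + 1 / 2 * 0 : ℝ) : EReal)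
        + ((1 / 2 : ℝ) : EReal) * ((1 / 2 * 0 + 1 / 2 * 0 : ℝ) : EReal) := by
    refine add_le_add (mul_le_mul_of_nonneg_left c1 ?_) (mul_le_mul_of_nonneg_left c2 ?_)
    · exact_mod_cast (by norm_num : (0 : ℝ) ≤ 1 / 2)
    · exact_mod_cast (by norm_num : (0 : ℝ) ≤ 1 / 2)
  have c5 := c3.trans c4
  rw [← EReal.coe_mul, ← EReal.coe_mul, ← EReal.coe_add] at c5
  have c6 : (1 / 2 : ℝ) ≤ 1 / 2 * (1 / 2 * -2 + 1 / 2 * 0) + 1 / 2 * (1 / 2 * 0 + 1 / 2 * 0) :=
    EReal.coe_le_coe_iff.1 c5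
  norm_num at c6

end Pool.Agent.H300.SM
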