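import Pool.Agent.H300.SM.Stm

set_option autoImplicit false

open Pool.Agent.H300.SM Finset MeasureTheory

namespace Pool.Agent.H962.SM

/-! ### sums over the grid -/

lemma mono_sum_dX {n m : ℕ} {u : ℕ → ℕ → ℝ} (hu : Zb n m u) :
    ∑ i ∈ range n, ∑ j ∈ range m, dX u i j = 0 := by
  rw [Finset.sum_comm]
  refine Finset.sum_eq_zero fun j _ => ?_
  unfold dX
  rw [Finset.sum_range_sub (fun i => u i j)]
  rw [hu n j (Or.inr (Or.inl le_rfl)), hu 0 j (Or.inl rfl), sub_zero]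

lemma mono_sum_dY {n m : ℕ} {v : ℕ → ℕ → ℝ} (hv : Zb n m v) :
    ∑ i ∈ range n, ∑ j ∈ range m, dY v i j = 0 := by
  refine Finset.sum_eq_zero fun i _ => ?_
  unfold dY
  rw [Finset.sum_range_sub (fun j => v i j)]
  rw [hv i m (Or.inr (Or.inr (Or.inr le_rfl))), hv i 0 (Or.inr (Or.inr (Or.inl rfl))), sub_zero]

/-! ### the quadrant functions are bilinear on the cells -/

lemma mono_max (a : ℕ) (i : ℤ) {s : ℝ} (h0 : 0 ≤ s) (h1 : s ≤ 1) :
    max ((i : ℝ) + s + a) 0 = (1 - s) * max ((i : ℝ) + a) 0 + s * max ((i : ℝ) + 1 + a) 0 := by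
  rcases le_or_gt 0 (i + a) with h | h
  · have h2 : (0 : ℝ) ≤ (i : ℝ) + a := by exact_mod_cast h
    rw [max_eq_left (by linarith), max_eq_left h2, max_eq_left (by linarith)]
    ring
  · have h2 : (i : ℝ) + a + 1 ≤ 0 := by exact_mod_cast h
    rw [max_eq_right (by linarith), max_eq_right (by linarith), max_eq_right (by linarith)]
    ring

lemma mono_om (a b : ℕ) (i j : ℤ) {s r : ℝ} (h0 : 0 ≤ s) (h1 : s ≤ 1) (h2 : 0 ≤ r) (h3 : r ≤ 1) :
    om a b (i + s) (j + r) = (1 - s) * (1 - r) * om a b i j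
      + s * (1 - r) * om a b (i + 1) j + (1 - s) * r * om a b i (j + 1)
      + s * r * om a b (i + 1) (j + 1) := by
  unfold om
  rw [mono_max a i h0 h1, mono_max b j h2 h3]
  ring

/-! ### integrability in the parameter -/

lemma mono_int {α β : ℝ → ℕ} (hα : Antitone α) (hβ : Antitone β) (x y c : ℝ) :
    IntervalIntegrable (fun l => om (α l) (β l) x y) volume 0 c := by
  have a1 : Antitone fun l => (α l : ℝ) := fun l l' h => Nat.cast_le.2 (hα h)
  have b1 : Antitone fun l => (β l : ℝ) := fun l l' h => Nat.cast_le.2 (hβ h)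
  have a2 : Antitone fun l => max (x + (α l : ℝ)) 0 := fun l l' h => by
    have := a1 h
    exact max_le_max (by simpa using this) le_rfl
  have b2 : Antitone fun l => max (y + (β l : ℝ)) 0 := fun l l' h => by
    have := b1 h
    exact max_le_max (by simpa using this) le_rfl
  have p1 : Antitone fun l => max (x + (α l : ℝ)) 0 * max (y + (β l : ℝ)) 0 := fun l l' h =>
    mul_le_mul (a2 h) (b2 h) (le_max_right _ _) (le_max_right _ _)
  have p2 : Antitone fun l => (α l : ℝ) * (β l : ℝ) := fun l l' h =>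
    mul_le_mul (a1 h) (b1 h) (Nat.cast_nonneg _) (Nat.cast_nonneg _)
  unfold om
  exact ((p1.intervalIntegrable.sub p2.intervalIntegrable).sub
    (b1.intervalIntegrable.mul_const x)).sub (a1.intervalIntegrable.mul_const y)

lemma ii_sum (s : Finset ℕ) {f : ℕ → ℝ → ℝ} {c : ℝ}
    (hf : ∀ i ∈ s, IntervalIntegrable (f i) volume 0 c) :
    IntervalIntegrable (fun l => ∑ i ∈ s, f i l) volume 0 c := by
  have e : (fun l => ∑ i ∈ s, f i l) = ∑ i ∈ s, f i := by
    funext l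
    rw [Finset.sum_apply]
  rw [e]
  exact IntervalIntegrable.sum s hf

/-! ### the mixed differences -/

/-- mixed difference -/
def md (ψ : ℝ → ℝ → ℝ) (x x' y y' : ℝ) : ℝ := ψ x' y' - ψ x' y - ψ x y' + ψ x y

lemma md_abs {ψ : ℝ → ℝ → ℝ} {κ : ℝ} (h : PP ψ κ) (x x' y y' : ℝ) :
    |md ψ x x' y y'| ≤ κ * |x' - x| * |y' - y| := by
  have key : ∀ x x' y y' : ℝ, x ≤ x' → y ≤ y' →
      |md ψ x x' y y'| ≤ κ * |x' - x| * |y' - y| := by
    intro x x' y y' hx hy
    obtain ⟨h1, h2⟩ := h.1 x x' y y' hx hy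
    unfold md
    rw [abs_of_nonneg h1, abs_of_nonneg (by linarith : 0 ≤ x' - x),
      abs_of_nonneg (by linarith : 0 ≤ y' - y)]
    exact h2
  rcases le_total x x' with hx | hx <;> rcases le_total y y' with hy | hy
  · exact key x x' y y' hx hy
  · have := key x x' y' y hx hy
    have e : md ψ x x' y y' = -md ψ x x' y' y := by unfold md; ring
    rw [e, abs_neg, abs_sub_comm y' y]
    exact this
  · have := key x' x y y' hx hy
    have e : md ψ x x' y y' = -md ψ x' x y y' := by unfold md; ring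
    rw [e, abs_neg, abs_sub_comm x' x]
    exact this
  · have := key x' x y' y hx hy
    have e : md ψ x x' y y' = md ψ x' x y' y := by unfold md; ring
    rw [e, abs_sub_comm x' x, abs_sub_comm y' y]
    exact this

lemma kappa_nonneg {ψ : ℝ → ℝ → ℝ} {κ : ℝ} (h : PP ψ κ) : 0 ≤ κ := by
  obtain ⟨h1, h2⟩ := h.1 0 1 0 1 (by norm_num) (by norm_num)
  linarith

/-- uniform continuity -/
lemma mono_uc {ψ : ℝ → ℝ → ℝ} {κ : ℝ} (hs : SepConvex ψ) (h : PP ψ κ) (A B R δ : ℝ) (hR : 0 ≤ R)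
    (hδ : 0 < δ) : ∃ ε : ℝ, 0 < ε ∧ ε < 1 ∧ ∀ x x' y y' : ℝ, |x - A| ≤ R + 1 → |x' - A| ≤ R + 1 →
      |y - B| ≤ R + 1 → |y' - B| ≤ R + 1 → |x' - x| ≤ ε → |y' - y| ≤ ε →
      ψ x' y' ≤ ψ x y + δ := by
  have hκ := kappa_nonneg h
  have c1 : Continuous fun x => ψ x B := by
    have := (hs.1 B).continuousOn isOpen_univ
    exact continuousOn_univ.1 this
  have c2 : Continuous (ψ A) := by
    have := (hs.2 A).continuousOn isOpen_univ
    exact continuousOn_univ.1 this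
  have u1 := (isCompact_Icc (a := A - (R + 1)) (b := A + (R + 1))).uniformContinuousOn_of_continuous
    c1.continuousOn
  have u2 := (isCompact_Icc (a := B - (R + 1)) (b := B + (R + 1))).uniformContinuousOn_of_continuous
    c2.continuousOn
  rw [Metric.uniformContinuousOn_iff] at u1 u2
  obtain ⟨ε₁, he1, hu1⟩ := u1 (δ / 4) (by linarith)
  obtain ⟨ε₂, he2, hu2⟩ := u2 (δ / 4) (by linarith)
  have hD : 0 < 4 * (κ + 1) * (R + 1) := by positivity
  refine ⟨min (min (ε₁ / 2) (ε₂ / 2)) (min (1 / 2) (δ / (4 * (κ + 1) * (R + 1)))), ?_, ?_, ?_⟩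
  · exact lt_min (lt_min (by linarith) (by linarith)) (lt_min (by norm_num) (by positivity))
  · exact lt_of_le_of_lt ((min_le_right _ _).trans (min_le_left _ _)) (by norm_num)
  intro x x' y y' hx hx' hy hy' hxx hyy
  have e1 : |x' - x| < ε₁ := lt_of_le_of_lt (hxx.trans ((min_le_left _ _).trans (min_le_left _ _)))
    (by linarith)
  have e2 : |y' - y| < ε₂ := lt_of_le_of_lt (hyy.trans ((min_le_left _ _).trans (min_le_right _ _)))
    (by linarith)
  have e3 : |x' - x| ≤ δ / (4 * (κ + 1) * (R + 1)) :=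
    hxx.trans ((min_le_right _ _).trans (min_le_right _ _))
  have e4 : |y' - y| ≤ δ / (4 * (κ + 1) * (R + 1)) :=
    hyy.trans ((min_le_right _ _).trans (min_le_right _ _))
  have m : ∀ {w C : ℝ}, |w - C| ≤ R + 1 → w ∈ Set.Icc (C - (R + 1)) (C + (R + 1)) := by
    intro w C hw
    rw [abs_le] at hw
    exact ⟨by linarith [hw.1], by linarith [hw.2]⟩
  have f1 := hu1 x' (m hx') x (m hx) (by rw [Real.dist_eq]; exact e1)
  have f2 := hu2 y' (m hy') y (m hy) (by rw [Real.dist_eq]; exact e2)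
  rw [Real.dist_eq] at f1 f2
  have g1 := md_abs h x x' B y'
  have g2 := md_abs h A x y y'
  have hb : ∀ {a b : ℝ}, 0 ≤ a → a ≤ δ / (4 * (κ + 1) * (R + 1)) → 0 ≤ b → b ≤ R + 1 →
      κ * a * b ≤ δ / 4 := by
    intro a b ha0 ha hb0 hb
    have : κ * a * b ≤ (κ + 1) * (δ / (4 * (κ + 1) * (R + 1))) * (R + 1) := by gcongr; linarith
    refine this.trans (le_of_eq ?_)
    field_simp
  have g1' : |md ψ x x' B y'| ≤ δ / 4 := g1.trans (hb (abs_nonneg _) e3 (abs_nonneg _) hy')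
  have g2' : |md ψ A x y y'| ≤ δ / 4 := by
    refine g2.trans ?_
    have := hb (a := |y' - y|) (b := |x - A|) (abs_nonneg _) e4 (abs_nonneg _) hx
    calc κ * |x - A| * |y' - y| = κ * |y' - y| * |x - A| := by ring
      _ ≤ δ / 4 := this
  have id : ψ x' y' - ψ x y = md ψ x x' B y' + (ψ x' B - ψ x B) + md ψ A x y y'
      + (ψ A y' - ψ A y) := by
    unfold md; ring
  have a1 := (abs_lt.1 f1).2
  have a2 := (abs_lt.1 f2).2
  have a3 := (abs_le.1 g1').2
  have a4 := (abs_le.1 g2').2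
  linarith

/-! ### the discretisation -/

/-- midpoint convexity -/
lemma mono_mid {f : ℝ → ℝ} (hf : ConvexOn ℝ Set.univ f) (x ε : ℝ) :
    2 * f x ≤ f (x + ε) + f (x - ε) := by
  have h := hf.2 (Set.mem_univ (x + ε)) (Set.mem_univ (x - ε)) (by norm_num : (0 : ℝ) ≤ 1 / 2)
    (by norm_num : (0 : ℝ) ≤ 1 / 2) (by norm_num)
  simp only [smul_eq_mul] at h
  have e : 1 / 2 * (x + ε) + 1 / 2 * (x - ε) = x := by ring
  rw [e] at h
  linarith

/-- the function on the grid -/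
noncomputable def FF (ψ : ℝ → ℝ → ℝ) (A B ε : ℝ) (i j : ℤ) : ℝ :=
  ψ (A + i * ε) (B + j * ε) - ψ A B - i * (ψ (A + ε) B - ψ A B) - j * (ψ A (B + ε) - ψ A B)

lemma cc_FF (ψ : ℝ → ℝ → ℝ) (A B ε : ℝ) (i j : ℤ) :
    cc (FF ψ A B ε) i j = md ψ (A + i * ε) (A + i * ε + ε) (B + j * ε) (B + j * ε + ε) := by
  unfold cc FF md
  have e1 : A + ((i + 1 : ℤ) : ℝ) * ε = A + i * ε + ε := by push_cast; ring
  have e2 : B + ((j + 1 : ℤ) : ℝ) * ε = B + j * ε + ε := by push_cast; ring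
  rw [e1, e2]
  push_cast
  ring

lemma mono_sup (h2 : S_SUP) {ψ : ℝ → ℝ → ℝ} {κ : ℝ} (hs : SepConvex ψ) (h : PP ψ κ) (A B : ℝ)
    {ε : ℝ} (hε : 0 < ε) (T : ℕ) :
    (0 ≤ cc (FF ψ A B ε) 0 0 ∧ cc (FF ψ A B ε) 0 0 ≤ κ * ε ^ 2) ∧
    ∃ α β : ℝ → ℕ, Antitone α ∧ Antitone β ∧
      ∀ i j : ℤ, -(T : ℤ) ≤ i → -(T : ℤ) ≤ j →
        (∫ l in (0 : ℝ)..cc (FF ψ A B ε) 0 0, om (α l) (β l) i j) ≤ FF ψ A B ε i j := by
  have hcc : ∀ i j, 0 ≤ cc (FF ψ A B ε) i j ∧ cc (FF ψ A B ε) i j ≤ κ * ε ^ 2 := by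
    intro i j
    rw [cc_FF]
    obtain ⟨g1, g2⟩ := h.1 (A + i * ε) (A + i * ε + ε) (B + j * ε) (B + j * ε + ε)
      (by linarith) (by linarith)
    refine ⟨g1, ?_⟩
    unfold md
    refine g2.trans (le_of_eq ?_)
    ring
  refine ⟨hcc 0 0, ?_⟩
  obtain ⟨α, β, hα, hβ, -, -, hαβ⟩ := h2 (FF ψ A B ε) T (by unfold FF; simp) (by unfold FF; simp)
    (by unfold FF; simp) (by
      intro i j
      have g := mono_mid (hs.1 (B + j * ε)) (A + i * ε) ε
      have e1 : A + ((i + 1 : ℤ) : ℝ) * ε = A + i * ε + ε := by push_cast; ring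
      have e2 : A + ((i - 1 : ℤ) : ℝ) * ε = A + i * ε - ε := by push_cast; ring
      unfold FF
      rw [e1, e2]
      push_cast
      linarith) (by
      intro i j
      have g := mono_mid (hs.2 (A + i * ε)) (B + j * ε) ε
      have e1 : B + ((j + 1 : ℤ) : ℝ) * ε = B + j * ε + ε := by push_cast; ring
      have e2 : B + ((j - 1 : ℤ) : ℝ) * ε = B + j * ε - ε := by push_cast; ring
      unfold FF
      rw [e1, e2]
      push_cast
      linarith) (fun i j => (hcc i j).1) (by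
      intro i j
      rw [cc_FF, cc_FF]
      have g := mono_mid (h.2.1 (B + j * ε) (B + j * ε + ε) (by linarith)) (A + i * ε + ε) ε
      have e1 : A + ((i + 1 : ℤ) : ℝ) * ε = A + i * ε + ε := by push_cast; ring
      have e2 : A + (i : ℝ) * ε + ε - ε = A + i * ε := by ring
      simp only [e2] at g
      rw [e1]
      unfold md
      linarith) (by
      intro i j
      rw [cc_FF, cc_FF]
      have g := mono_mid (h.2.2 (A + i * ε) (A + i * ε + ε) (by linarith)) (B + j * ε + ε) ε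
      have e1 : B + ((j + 1 : ℤ) : ℝ) * ε = B + j * ε + ε := by push_cast; ring
      have e2 : B + (j : ℝ) * ε + ε - ε = B + j * ε := by ring
      simp only [e2] at g
      rw [e1]
      unfold md
      linarith)
  exact ⟨α, β, hα, hβ, hαβ⟩

/-- the pointwise bound -/
lemma mono_pt {ψ : ℝ → ℝ → ℝ} {A B R δ ε : ℝ} (hε : 0 < ε) (hε1 : ε < 1)
    (huc : ∀ x x' y y' : ℝ, |x - A| ≤ R + 1 → |x' - A| ≤ R + 1 →
      |y - B| ≤ R + 1 → |y' - B| ≤ R + 1 → |x' - x| ≤ ε → |y' - y| ≤ ε →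
      ψ x' y' ≤ ψ x y + δ) {T : ℕ} (hT : R + 1 ≤ T * ε) {c : ℝ} {α β : ℝ → ℕ}
    (hα : Antitone α) (hβ : Antitone β)
    (hαβ : ∀ i j : ℤ, -(T : ℤ) ≤ i → -(T : ℤ) ≤ j →
      (∫ l in (0 : ℝ)..c, om (α l) (β l) i j) ≤ FF ψ A B ε i j) {ξ η : ℝ}
    (hξ : |ξ| ≤ R) (hη : |η| ≤ R) :
    (∫ l in (0 : ℝ)..c, om (α l) (β l) (ξ / ε) (η / ε)) ≤ ψ (A + ξ) (B + η) - ψ A B
      - ξ / ε * (ψ (A + ε) B - ψ A B) - η / ε * (ψ A (B + ε) - ψ A B) + δ := by
  -- the cell
  have cell : ∀ {w : ℝ}, |w| ≤ R → ∃ (i : ℤ) (s : ℝ), 0 ≤ s ∧ s ≤ 1 ∧ w / ε = i + s ∧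
      -(T : ℤ) ≤ i ∧ |(i : ℝ) * ε - w| ≤ ε ∧ |((i + 1 : ℤ) : ℝ) * ε - w| ≤ ε := by
    intro w hw
    rw [abs_le] at hw
    refine ⟨⌊w / ε⌋, Int.fract (w / ε), Int.fract_nonneg _, (Int.fract_lt_one _).le,
      (Int.floor_add_fract _).symm, ?_, ?_, ?_⟩
    · rw [Int.le_floor, le_div_iff₀ hε]
      push_cast
      linarith [hw.1]
    · have h1 := Int.floor_le (w / ε)
      have h2 := Int.lt_floor_add_one (w / ε)
      rw [le_div_iff₀ hε] at h1
      rw [div_lt_iff₀ hε] at h2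
      rw [abs_le]
      constructor <;> linarith
    · have h1 := Int.floor_le (w / ε)
      have h2 := Int.lt_floor_add_one (w / ε)
      rw [le_div_iff₀ hε] at h1
      rw [div_lt_iff₀ hε] at h2
      push_cast
      rw [abs_le]
      constructor <;> linarith
  obtain ⟨i, s, hs0, hs1, his, hiT, hi1, hi2⟩ := cell hξ
  obtain ⟨j, r, hr0, hr1, hjr, hjT, hj1, hj2⟩ := cell hη
  -- the corners
  have corner : ∀ (i' j' : ℤ), |(i' : ℝ) * ε - ξ| ≤ ε → |(j' : ℝ) * ε - η| ≤ ε →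
      ψ (A + i' * ε) (B + j' * ε) ≤ ψ (A + ξ) (B + η) + δ := by
    intro i' j' h1 h2
    have h1' := abs_le.1 h1
    have h2' := abs_le.1 h2
    have hξ' := abs_le.1 hξ
    have hη' := abs_le.1 hη
    refine huc _ _ _ _ ?_ ?_ ?_ ?_ ?_ ?_
    · rw [add_sub_cancel_left]; linarith
    · rw [add_sub_cancel_left, abs_le]; constructor <;> linarith [h1'.1, h1'.2, hξ'.1, hξ'.2]
    · rw [add_sub_cancel_left]; linarith
    · rw [add_sub_cancel_left, abs_le]; constructor <;> linarith [h2'.1, h2'.2, hη'.1, hη'.2]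
    · rw [add_sub_add_left_eq_sub]; exact h1
    · rw [add_sub_add_left_eq_sub]; exact h2
  have k1 := corner i j hi1 hj1
  have k2 := corner (i + 1) j hi2 hj1
  have k3 := corner i (j + 1) hi1 hj2
  have k4 := corner (i + 1) (j + 1) hi2 hj2
  have F1 := hαβ i j hiT hjT
  have F2 := hαβ (i + 1) j (by omega) hjT
  have F3 := hαβ i (j + 1) hiT (by omega)
  have F4 := hαβ (i + 1) (j + 1) (by omega) (by omega)
  have w1 : 0 ≤ (1 - s) * (1 - r) := mul_nonneg (by linarith) (by linarith)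
  have w2 : 0 ≤ s * (1 - r) := mul_nonneg hs0 (by linarith)
  have w3 : 0 ≤ (1 - s) * r := mul_nonneg (by linarith) hr0
  have w4 : 0 ≤ s * r := mul_nonneg hs0 hr0
  have I : ∀ x y : ℝ, IntervalIntegrable (fun l => om (α l) (β l) x y) volume 0 c :=
    fun x y => mono_int hα hβ x y c
  have e : (∫ l in (0 : ℝ)..c, om (α l) (β l) (ξ / ε) (η / ε))
      = (1 - s) * (1 - r) * (∫ l in (0 : ℝ)..c, om (α l) (β l) i j)
      + s * (1 - r) * (∫ l in (0 : ℝ)..c, om (α l) (β l) ((i + 1 : ℤ) : ℝ) j)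
      + (1 - s) * r * (∫ l in (0 : ℝ)..c, om (α l) (β l) i ((j + 1 : ℤ) : ℝ))
      + s * r * (∫ l in (0 : ℝ)..c, om (α l) (β l) ((i + 1 : ℤ) : ℝ) ((j + 1 : ℤ) : ℝ)) := by
    rw [← intervalIntegral.integral_const_mul, ← intervalIntegral.integral_const_mul,
      ← intervalIntegral.integral_const_mul, ← intervalIntegral.integral_const_mul,
      ← intervalIntegral.integral_add ((I _ _).const_mul _) ((I _ _).const_mul _),
      ← intervalIntegral.integral_add (((I _ _).const_mul _).add ((I _ _).const_mul _))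
        ((I _ _).const_mul _),
      ← intervalIntegral.integral_add ((((I _ _).const_mul _).add ((I _ _).const_mul _)).add
        ((I _ _).const_mul _)) ((I _ _).const_mul _)]
    refine intervalIntegral.integral_congr fun l _ => ?_
    rw [his, hjr, mono_om (α l) (β l) i j hs0 hs1 hr0 hr1]
    push_cast
    ring
  rw [e]
  unfold FF at F1 F2 F3 F4
  push_cast at F1 F2 F3 F4 k1 k2 k3 k4 ⊢
  obtain ⟨P, hP⟩ : ∃ P, P = ψ (A + ξ) (B + η) := ⟨_, rfl⟩
  obtain ⟨Q, hQ⟩ : ∃ Q, Q = ψ A B := ⟨_, rfl⟩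
  obtain ⟨p, hp⟩ : ∃ p, p = ψ (A + ε) B - ψ A B := ⟨_, rfl⟩
  obtain ⟨q, hq⟩ : ∃ q, q = ψ A (B + ε) - ψ A B := ⟨_, rfl⟩
  rw [← hP] at k1 k2 k3 k4 ⊢
  rw [← hp, ← hq] at F1 F2 F3 F4 ⊢
  rw [← hQ] at F1 F2 F3 F4 ⊢
  have G1 := mul_le_mul_of_nonneg_left (F1.trans (sub_le_sub_right (sub_le_sub_right
    (sub_le_sub_right k1 Q) _) _)) w1
  have G2 := mul_le_mul_of_nonneg_left (F2.trans (sub_le_sub_right (sub_le_sub_right
    (sub_le_sub_right k2 Q) _) _)) w2
  have G3 := mul_le_mul_of_nonneg_left (F3.trans (sub_le_sub_right (sub_le_sub_right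
    (sub_le_sub_right k3 Q) _) _)) w3
  have G4 := mul_le_mul_of_nonneg_left (F4.trans (sub_le_sub_right (sub_le_sub_right
    (sub_le_sub_right k4 Q) _) _)) w4
  refine (add_le_add (add_le_add (add_le_add G1 G2) G3) G4).trans (le_of_eq ?_)
  rw [his, hjr]
  ring

theorem t_MONO (h1 : S_PROJ) (h2 : S_SUP) : S_MONO := by
  intro ψ κ hs h A B n m u v hu hv
  simp only
  -- the bound for the differences
  obtain ⟨R, hR⟩ : ∃ R, R = ∑ i ∈ range n, ∑ j ∈ range m, (|dX u i j| + |dY v i j|) := ⟨_, rfl⟩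
  have hR0 : 0 ≤ R := by
    rw [hR]
    exact Finset.sum_nonneg fun i _ => Finset.sum_nonneg fun j _ =>
      add_nonneg (abs_nonneg _) (abs_nonneg _)
  have hRij : ∀ i ∈ range n, ∀ j ∈ range m, |dX u i j| + |dY v i j| ≤ R := by
    intro i hi j hj
    rw [hR]
    refine le_trans ?_ (Finset.single_le_sum (f := fun i => ∑ j ∈ range m,
      (|dX u i j| + |dY v i j|)) (fun i _ => Finset.sum_nonneg fun j _ =>
      add_nonneg (abs_nonneg _) (abs_nonneg _)) hi)
    exact Finset.single_le_sum (f := fun j => |dX u i j| + |dY v i j|)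
      (fun j _ => add_nonneg (abs_nonneg _) (abs_nonneg _)) hj
  obtain ⟨S, hS⟩ : ∃ S, S = ∑ i ∈ range n, ∑ j ∈ range m, (dZ u i j - dW v i j) ^ 2 := ⟨_, rfl⟩
  have hS0 : 0 ≤ S := by
    rw [hS]
    exact Finset.sum_nonneg fun i _ => Finset.sum_nonneg fun j _ => sq_nonneg _
  -- it is enough to prove it up to `n m δ`
  obtain ⟨Sg, hSg⟩ : ∃ Sg', Sg' = ∑ i ∈ range n, ∑ j ∈ range m,
    (ψ (A + dX u i j) (B + dY v i j) - ψ A B) := ⟨_, rfl⟩
  have hgoal : ∑ i ∈ range n, ∑ j ∈ range m, (ψ (A + dX u i j) (B + dY v i j) - ψ A B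
      + κ / 4 * (dZ u i j - dW v i j) ^ 2) = Sg + κ / 4 * S := by
    rw [hSg, hS, Finset.mul_sum, ← Finset.sum_add_distrib]
    refine Finset.sum_congr rfl fun i _ => ?_
    rw [Finset.mul_sum, ← Finset.sum_add_distrib]
  rw [hgoal]
  have key : ∀ δ : ℝ, 0 < δ → -(n * m * δ) ≤ Sg + κ / 4 * S := by
    intro δ hδ
    obtain ⟨ε, hε, hε1, huc⟩ := mono_uc hs h A B R δ hR0 hδ
    obtain ⟨T, hT⟩ := exists_nat_ge ((R + 1) / ε)
    rw [div_le_iff₀ hε] at hT
    obtain ⟨⟨hc0, hc1⟩, α, β, hα, hβ, hαβ⟩ := mono_sup h2 hs h A B hε T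
    obtain ⟨c, hc⟩ : ∃ c, c = cc (FF ψ A B ε) 0 0 := ⟨_, rfl⟩
    rw [← hc] at hc0 hc1 hαβ
    have hpt : ∀ i ∈ range n, ∀ j ∈ range m,
        (∫ l in (0 : ℝ)..c, om (α l) (β l) (dX u i j / ε) (dY v i j / ε))
          ≤ (ψ (A + dX u i j) (B + dY v i j) - ψ A B)
            - dX u i j * ((ψ (A + ε) B - ψ A B) / ε) - dY v i j * ((ψ A (B + ε) - ψ A B) / ε)
            + δ := by
      intro i hi j hj
      have hb := hRij i hi j hj
      have := mono_pt (ψ := ψ) (A := A) (B := B) (R := R) (δ := δ) hε hε1 huc hT hα hβ hαβ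
        (ξ := dX u i j) (η := dY v i j)
        (by linarith [abs_nonneg (dY v i j)]) (by linarith [abs_nonneg (dX u i j)])
      refine this.trans (le_of_eq ?_)
      ring
    have hsum : ∑ i ∈ range n, ∑ j ∈ range m,
        (∫ l in (0 : ℝ)..c, om (α l) (β l) (dX u i j / ε) (dY v i j / ε))
          ≤ Sg + n * m * δ := by
      refine (Finset.sum_le_sum fun i hi => Finset.sum_le_sum fun j hj => hpt i hi j hj).trans ?_
      have e1 : ∀ i ∈ range n, ∑ j ∈ range m, ((ψ (A + dX u i j) (B + dY v i j) - ψ A B)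
            - dX u i j * ((ψ (A + ε) B - ψ A B) / ε) - dY v i j * ((ψ A (B + ε) - ψ A B) / ε)
            + δ) = (∑ j ∈ range m, (ψ (A + dX u i j) (B + dY v i j) - ψ A B))
            - (∑ j ∈ range m, dX u i j) * ((ψ (A + ε) B - ψ A B) / ε)
            - (∑ j ∈ range m, dY v i j) * ((ψ A (B + ε) - ψ A B) / ε) + m * δ := by
        intro i _
        rw [Finset.sum_add_distrib, Finset.sum_sub_distrib, Finset.sum_sub_distrib,
          Finset.sum_mul, Finset.sum_mul, Finset.sum_const, card_range, nsmul_eq_mul]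
      rw [Finset.sum_congr rfl e1, Finset.sum_add_distrib, Finset.sum_sub_distrib,
        Finset.sum_sub_distrib, ← Finset.sum_mul, ← Finset.sum_mul, mono_sum_dX hu,
        mono_sum_dY hv, ← hSg, Finset.sum_const, card_range, nsmul_eq_mul]
      refine le_of_eq ?_
      ring
    have hI : ∀ x y : ℝ, IntervalIntegrable (fun l => om (α l) (β l) x y) volume 0 c :=
      fun x y => mono_int hα hβ x y c
    have hint : -(c * (1 / 4 * (S / ε ^ 2))) ≤ ∑ i ∈ range n, ∑ j ∈ range m,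
        (∫ l in (0 : ℝ)..c, om (α l) (β l) (dX u i j / ε) (dY v i j / ε)) := by
      have e2 : ∑ i ∈ range n, ∑ j ∈ range m,
          (∫ l in (0 : ℝ)..c, om (α l) (β l) (dX u i j / ε) (dY v i j / ε))
          = ∫ l in (0 : ℝ)..c, ∑ i ∈ range n, ∑ j ∈ range m,
            om (α l) (β l) (dX u i j / ε) (dY v i j / ε) := by
        rw [intervalIntegral.integral_finsetSum]
        · refine Finset.sum_congr rfl fun i _ => ?_
          rw [intervalIntegral.integral_finsetSum]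
          exact fun j _ => hI _ _
        · intro i _
          exact ii_sum _ fun j _ => hI _ _
      rw [e2]
      have e3 : -(c * (1 / 4 * (S / ε ^ 2))) = ∫ l in (0 : ℝ)..c, -(1 / 4 * (S / ε ^ 2)) := by
        rw [intervalIntegral.integral_const, smul_eq_mul, sub_zero]
        ring
      rw [e3]
      refine intervalIntegral.integral_mono_on hc0 intervalIntegrable_const
        ?_ fun l _ => ?_
      · exact ii_sum _ fun i _ => ii_sum _ fun j _ => hI _ _
      · have hz1 : Zb n m fun i j => u i j / ε := fun i j hij => by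
          simp only
          rw [hu i j hij, zero_div]
        have hz2 : Zb n m fun i j => v i j / ε := fun i j hij => by
          simp only
          rw [hv i j hij, zero_div]
        have hd := h1 (α l) (β l) (Nat.cast_nonneg _) (Nat.cast_nonneg _) n m _ _ hz1 hz2
        simp only at hd
        have d1 : ∀ i j, dX (fun i j => u i j / ε) i j = dX u i j / ε := fun i j => by
          unfold dX; ring
        have d2 : ∀ i j, dY (fun i j => v i j / ε) i j = dY v i j / ε := fun i j => by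
          unfold dY; ring
        have d3 : ∀ i j, dZ (fun i j => u i j / ε) i j = dZ u i j / ε := fun i j => by
          unfold dZ; ring
        have d4 : ∀ i j, dW (fun i j => v i j / ε) i j = dW v i j / ε := fun i j => by
          unfold dW; ring
        simp only [d1, d2, d3, d4] at hd
        have e4 : ∑ i ∈ range n, ∑ j ∈ range m,
            (om (α l) (β l) (dX u i j / ε) (dY v i j / ε)
              + 1 / 4 * (dZ u i j / ε - dW v i j / ε) ^ 2)
            = (∑ i ∈ range n, ∑ j ∈ range m, om (α l) (β l) (dX u i j / ε) (dY v i j / ε))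
              + 1 / 4 * (S / ε ^ 2) := by
          rw [hS, Finset.sum_div, Finset.mul_sum, ← Finset.sum_add_distrib]
          refine Finset.sum_congr rfl fun i _ => ?_
          rw [Finset.sum_div, Finset.mul_sum, ← Finset.sum_add_distrib]
          refine Finset.sum_congr rfl fun j _ => ?_
          field_simp
        rw [e4] at hd
        linarith
    have hcS : c * (1 / 4 * (S / ε ^ 2)) ≤ κ / 4 * S := by
      have hε2 : 0 < ε ^ 2 := by positivity
      calc c * (1 / 4 * (S / ε ^ 2)) ≤ κ * ε ^ 2 * (1 / 4 * (S / ε ^ 2)) :=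
            mul_le_mul_of_nonneg_right hc1 (by positivity)
        _ = κ / 4 * S := by field_simp
    linarith
  by_contra hneg
  rw [not_le] at hneg
  obtain ⟨X, hX⟩ : ∃ X, X = Sg + κ / 4 * S := ⟨_, rfl⟩
  rw [← hX] at hneg key
  have hnm : (0 : ℝ) ≤ n * m := by positivity
  have h3 := key (-X / (2 * (n * m + 1))) (div_pos (by linarith) (by positivity))
  have h4 : (n : ℝ) * m * (-X / (2 * (n * m + 1))) ≤ -X / 2 := by
    rw [← mul_div_assoc, div_le_div_iff₀ (by positivity) (by norm_num)]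
    nlinarith
  linarith

end Pool.Agent.H962.SM
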