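import Pool.Agent.H300.SM.Stm

/-!
# H300 PROJ (helper643, for helper300): the basic discrete inequality
-/

set_option autoImplicit false

open Pool.Agent.H300.SM Finset

namespace Pool.Agent.H643.SM

/-- the constraints for a row -/
structure Adm (a : ℝ) (n : ℕ) (w : ℕ → ℝ) : Prop where
  z0 : w 0 = 0
  zn : ∀ i, n ≤ i → w i = 0
  sl : ∀ i, i < n → 0 ≤ a + w (i + 1) - w i

/-- `k` is the projection of `r` -/
structure Prj (a : ℝ) (n : ℕ) (r k : ℕ → ℝ) : Prop where
  adm : Adm a n k
  le : ∀ w, Adm a n w → ∑ i ∈ range n, (r i - k i) * (w i - k i) ≤ 0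

/-- extension by zero -/
def ext {n : ℕ} (x : EuclideanSpace ℝ (Fin n)) (i : ℕ) : ℝ := if h : i < n then x ⟨i, h⟩ else 0

theorem ext_of_le {n : ℕ} (x : EuclideanSpace ℝ (Fin n)) {i : ℕ} (h : n ≤ i) : ext x i = 0 :=
  dif_neg (not_lt.2 h)

theorem ext_cont {n : ℕ} (i : ℕ) : Continuous (fun x : EuclideanSpace ℝ (Fin n) => ext x i) := by
  unfold ext
  split_ifs with h
  · fun_prop
  · exact continuous_const

theorem ext_lin {n : ℕ} (s t : ℝ) (x y : EuclideanSpace ℝ (Fin n)) (i : ℕ) :
    ext (s • x + t • y) i = s * ext x i + t * ext y i := by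
  unfold ext
  split_ifs with h
  · simp
  · simp

theorem exists_prj {a : ℝ} (ha : 0 ≤ a) (n : ℕ) (r : ℕ → ℝ) : ∃ k, Prj a n r k := by
  classical
  let C : Set (EuclideanSpace ℝ (Fin n)) := {x | Adm a n (ext x)}
  have hmem : ∀ x, x ∈ C ↔ ext x 0 = 0 ∧ ∀ i, i < n → 0 ≤ a + ext x (i + 1) - ext x i := by
    intro x
    exact ⟨fun h => ⟨h.z0, h.sl⟩, fun h => ⟨h.1, fun i hi => ext_of_le x hi, h.2⟩⟩
  have hne : C.Nonempty := by
    refine ⟨0, (hmem 0).2 ⟨?_, fun i _ => ?_⟩⟩
    · simp [ext]
    · simp [ext, ha]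
  have hclosed : IsClosed C := by
    have h1 : C = {x | ext x 0 = 0} ∩ ⋂ i : Fin n, {x | 0 ≤ a + ext x (i + 1) - ext x i} := by
      ext x
      rw [hmem]
      simp only [Set.mem_inter_iff, Set.mem_setOf_eq, Set.mem_iInter]
      constructor
      · rintro ⟨h1, h2⟩
        exact ⟨h1, fun i => h2 i i.2⟩
      · rintro ⟨h1, h2⟩
        exact ⟨h1, fun i hi => h2 ⟨i, hi⟩⟩
    rw [h1]
    refine IsClosed.inter (isClosed_eq (ext_cont 0) continuous_const) ?_
    refine isClosed_iInter fun i => ?_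
    exact isClosed_le continuous_const
      ((continuous_const.add (ext_cont _)).sub (ext_cont _))
  have hconv : Convex ℝ C := by
    intro x hx y hy s t hs ht hst
    rw [hmem] at hx hy ⊢
    refine ⟨by rw [ext_lin, hx.1, hy.1]; ring, fun i hi => ?_⟩
    rw [ext_lin, ext_lin]
    have h1 := mul_nonneg hs (hx.2 i hi)
    have h2 := mul_nonneg ht (hy.2 i hi)
    have h3 : a = s * a + t * a := by rw [← add_mul, hst, one_mul]
    nlinarith
  let ρ : EuclideanSpace ℝ (Fin n) := WithLp.toLp 2 fun i => r i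
  obtain ⟨κ, hκ, hmin⟩ := exists_norm_eq_iInf_of_complete_convex hne hclosed.isComplete hconv ρ
  rw [norm_eq_iInf_iff_real_inner_le_zero hconv hκ] at hmin
  refine ⟨ext κ, hκ, fun w hw => ?_⟩
  let ω : EuclideanSpace ℝ (Fin n) := WithLp.toLp 2 fun i => w i
  have hω : ext ω = w := by
    funext i
    unfold ext
    split_ifs with h
    · rfl
    · exact (hw.zn i (not_lt.1 h)).symm
  have h1 := hmin ω (by
    show Adm a n (ext ω)
    rw [hω]
    exact hw)
  have h2 : inner ℝ (ρ - κ) (ω - κ) = ∑ i ∈ range n, (r i - ext κ i) * (w i - ext κ i) := by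
    rw [PiLp.inner_apply, Finset.sum_range]
    refine Finset.sum_congr rfl fun i _ => ?_
    have h3 : ext κ i = κ i := dif_pos i.2
    rw [h3]
    simp only [RCLike.inner_apply, conj_trivial, PiLp.sub_apply]
    show (w i - κ i) * (r i - κ i) = _
    ring
  rw [← h2]
  exact h1

/-- the slopes of the projection -/
theorem Prj.slope {a : ℝ} {n : ℕ} {r k : ℕ → ℝ} (h : Prj a n r k) (h0 : r 0 = 0)
    (hn : ∀ i, n ≤ i → r i = 0) {i : ℕ} (hi : i < n) :
    a + k (i + 1) - k i ≤ max (r (i + 1) - r i + a) 0 := by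
  classical
  have hs := h.adm.sl i hi
  rcases eq_or_lt_of_le hs with h1 | h1
  · rw [← h1]
    exact le_max_right _ _
  set ε := a + k (i + 1) - k i with hε
  have key : ∀ (p : ℕ) (δ : ℝ), p < n → Adm a n (Function.update k p (k p + δ)) →
      (r p - k p) * δ ≤ 0 := by
    intro p δ hp hA
    have h2 := h.le _ hA
    rw [Finset.sum_eq_single p] at h2
    · rw [Function.update_self, add_sub_cancel_left] at h2
      exact h2
    · intro j _ hj
      rw [Function.update_of_ne hj, sub_self, mul_zero]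
    · intro hp'
      exact absurd (Finset.mem_range.2 hp) hp'
  have hA : r i ≤ k i := by
    rcases Nat.eq_zero_or_pos i with h2 | h2
    · rw [h2, h0, h.adm.z0]
    · have h3 := key i ε hi ⟨?_, ?_, ?_⟩
      · by_contra hcon
        push Not at hcon
        have : 0 < (r i - k i) * ε := mul_pos (sub_pos.2 hcon) h1
        linarith
      · rw [Function.update_of_ne h2.ne, h.adm.z0]
      · intro j hj
        rw [Function.update_of_ne (by omega), h.adm.zn j hj]
      · intro j hj
        by_cases h4 : j = i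
        · subst h4
          rw [Function.update_self, Function.update_of_ne (by omega)]
          linarith
        · rw [Function.update_of_ne h4]
          have h5 := h.adm.sl j hj
          by_cases h6 : j + 1 = i
          · rw [h6, Function.update_self]
            rw [h6] at h5
            linarith
          · rw [Function.update_of_ne h6]
            exact h5
  have hB : k (i + 1) ≤ r (i + 1) := by
    rcases Nat.lt_or_ge (i + 1) n with h2 | h2
    · have h3 := key (i + 1) (-ε) h2 ⟨?_, ?_, ?_⟩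
      · by_contra hcon
        push Not at hcon
        have : 0 < (k (i + 1) - r (i + 1)) * ε := mul_pos (sub_pos.2 hcon) h1
        nlinarith
      · rw [Function.update_of_ne (by omega), h.adm.z0]
      · intro j hj
        rw [Function.update_of_ne (by omega), h.adm.zn j hj]
      · intro j hj
        by_cases h4 : j = i + 1
        · subst h4
          rw [Function.update_self, Function.update_of_ne (by omega)]
          have h5 := h.adm.sl (i + 1) hj
          linarith
        · rw [Function.update_of_ne h4]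
          by_cases h6 : j = i
          · subst h6
            rw [Function.update_self]
            linarith
          · rw [Function.update_of_ne (by omega)]
            exact h.adm.sl j hj
    · rw [h.adm.zn _ h2, hn _ h2]
  refine le_trans ?_ (le_max_left _ _)
  linarith

/-- monotonicity of the projection -/
theorem Prj.mono {a : ℝ} {n : ℕ} {r k r' k' : ℕ → ℝ} (h : Prj a n r k) (h' : Prj a n r' k') :
    0 ≤ ∑ i ∈ range n, (k' i - k i) * ((r' i - r i) - (k' i - k i)) := by
  have h1 := h.le k' h'.adm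
  have h2 := h'.le k h.adm
  have h3 : ∑ i ∈ range n, (k' i - k i) * ((r' i - r i) - (k' i - k i)) =
      -(∑ i ∈ range n, (r i - k i) * (k' i - k i)) - ∑ i ∈ range n, (r' i - k' i) * (k i - k' i) := by
    rw [← Finset.sum_neg_distrib, ← Finset.sum_sub_distrib]
    exact Finset.sum_congr rfl fun i _ => by ring
  rw [h3]
  linarith

theorem Prj.zero {a : ℝ} (ha : 0 ≤ a) {n : ℕ} {r k : ℕ → ℝ} (h : Prj a n r k)
    (hr : ∀ i, r i = 0) (i : ℕ) : k i = 0 := by
  rcases Nat.lt_or_ge i n with hi | hi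
  · have h1 := h.le (fun _ => 0) ⟨rfl, fun _ _ => rfl, fun _ _ => by simpa using ha⟩
    have h2 : ∑ i ∈ range n, k i ^ 2 ≤ 0 := by
      refine le_trans (le_of_eq ?_) h1
      exact Finset.sum_congr rfl fun i _ => by rw [hr]; ring
    have h3 : ∑ i ∈ range n, k i ^ 2 = 0 :=
      le_antisymm h2 (Finset.sum_nonneg fun i _ => sq_nonneg _)
    have h4 := (Finset.sum_eq_zero_iff_of_nonneg (fun i _ => sq_nonneg (k i))).1 h3 i
      (Finset.mem_range.2 hi)
    exact pow_eq_zero_iff two_ne_zero |>.1 h4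
  · exact h.adm.zn i hi

theorem shift (g : ℕ → ℝ) (n : ℕ) (h : g n = g 0) :
    ∑ i ∈ range n, g (i + 1) = ∑ i ∈ range n, g i := by
  have h1 := Finset.sum_range_sub g n
  rw [Finset.sum_sub_distrib, h, sub_self, sub_eq_zero] at h1
  exact h1

/-- the null Lagrangian -/
theorem null (n m : ℕ) (k v : ℕ → ℕ → ℝ) (hk : Zb n m k) (hv : Zb n m v) :
    ∑ i ∈ range n, ∑ j ∈ range m, dX k i j * dY v i j =
      ∑ i ∈ range n, ∑ j ∈ range m, dZ k i j * dW v i j := by
  have k0 : ∀ j, k 0 j = 0 := fun j => hk 0 j (Or.inl rfl)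
  have kn : ∀ j, k n j = 0 := fun j => hk n j (Or.inr (Or.inl le_rfl))
  have ki0 : ∀ i, k i 0 = 0 := fun i => hk i 0 (Or.inr (Or.inr (Or.inl rfl)))
  have kim : ∀ i, k i m = 0 := fun i => hk i m (Or.inr (Or.inr (Or.inr le_rfl)))
  -- shift in `j`
  have e1 : ∑ i ∈ range n, ∑ j ∈ range m, k (i + 1) (j + 1) * v i (j + 1) =
      ∑ i ∈ range n, ∑ j ∈ range m, k (i + 1) j * v i j :=
    Finset.sum_congr rfl fun i _ => shift (fun j => k (i + 1) j * v i j) m (by
      simp only [kim, ki0, zero_mul])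
  -- shift in `i`
  have e2 : ∑ i ∈ range n, ∑ j ∈ range m, k (i + 1) j * v (i + 1) (j + 1) =
      ∑ i ∈ range n, ∑ j ∈ range m, k i j * v i (j + 1) :=
    shift (fun i => ∑ j ∈ range m, k i j * v i (j + 1)) n (by
      simp only [kn, k0, zero_mul])
  have e3 : ∑ i ∈ range n, ∑ j ∈ range m, k (i + 1) (j + 1) * v (i + 1) (j + 1) =
      ∑ i ∈ range n, ∑ j ∈ range m, k i j * v i j := by
    have e4 : ∑ i ∈ range n, ∑ j ∈ range m, k (i + 1) (j + 1) * v (i + 1) (j + 1) =
        ∑ i ∈ range n, ∑ j ∈ range m, k (i + 1) j * v (i + 1) j :=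
      Finset.sum_congr rfl fun i _ => shift (fun j => k (i + 1) j * v (i + 1) j) m (by
        simp only [kim, ki0, zero_mul])
    rw [e4]
    exact shift (fun i => ∑ j ∈ range m, k i j * v i j) n (by simp only [kn, k0, zero_mul])
  have h1 : ∑ i ∈ range n, ∑ j ∈ range m, dX k i j * dY v i j =
      ∑ i ∈ range n, ∑ j ∈ range m, k (i + 1) j * v i (j + 1) -
      ∑ i ∈ range n, ∑ j ∈ range m, k (i + 1) j * v i j -
      ∑ i ∈ range n, ∑ j ∈ range m, k i j * v i (j + 1) +
      ∑ i ∈ range n, ∑ j ∈ range m, k i j * v i j := by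
    simp only [← Finset.sum_sub_distrib, ← Finset.sum_add_distrib]
    refine Finset.sum_congr rfl fun i _ => Finset.sum_congr rfl fun j _ => ?_
    unfold dX dY
    ring
  have h2 : ∑ i ∈ range n, ∑ j ∈ range m, dZ k i j * dW v i j =
      ∑ i ∈ range n, ∑ j ∈ range m, k (i + 1) (j + 1) * v (i + 1) (j + 1) -
      ∑ i ∈ range n, ∑ j ∈ range m, k (i + 1) (j + 1) * v i (j + 1) -
      ∑ i ∈ range n, ∑ j ∈ range m, k (i + 1) j * v (i + 1) (j + 1) +
      ∑ i ∈ range n, ∑ j ∈ range m, k (i + 1) j * v i (j + 1) := by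
    simp only [← Finset.sum_sub_distrib, ← Finset.sum_add_distrib]
    refine Finset.sum_congr rfl fun i _ => Finset.sum_congr rfl fun j _ => ?_
    unfold dZ dW
    ring
  rw [h1, h2, e1, e2, e3]
  ring

theorem t_PROJ : S_PROJ := by
  intro a b ha hb n m u v hu hv
  -- the projections
  choose k hk using fun j : ℕ => exists_prj ha n fun i => u i j
  set κ : ℕ → ℕ → ℝ := fun i j => k j i with hκ
  have hκZ : Zb n m κ := by
    rintro i j (h | h | h | h)
    · rw [h]; exact (hk j).adm.z0
    · exact (hk j).adm.zn i h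
    · exact (hk j).zero ha (fun i => hu i j (Or.inr (Or.inr (Or.inl h)))) i
    · exact (hk j).zero ha (fun i => hu i j (Or.inr (Or.inr (Or.inr h)))) i
  -- the pointwise bound
  have hpt : ∀ i ∈ range n, ∀ j ∈ range m,
      b * (dX κ i j - dX u i j) + dX κ i j * dY v i j + 1 / 4 * (dZ u i j - dW v i j) ^ 2 ≤
        om a b (dX u i j) (dY v i j) + 1 / 4 * (dZ u i j - dW v i j) ^ 2 := by
    intro i hi j _
    have h1 := (hk j).slope (hu 0 j (Or.inl rfl)) (fun i hi => hu i j (Or.inr (Or.inl hi)))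
      (Finset.mem_range.1 hi)
    have h2 := (hk j).adm.sl i (Finset.mem_range.1 hi)
    have e1 : a + k j (i + 1) - k j i = a + dX κ i j := by
      simp only [dX, hκ]
      ring
    have e2 : u (i + 1) j - u i j = dX u i j := rfl
    rw [e1] at h1 h2
    rw [e2] at h1
    have h3 : (a + dX κ i j) * (dY v i j + b) ≤ max (dX u i j + a) 0 * max (dY v i j + b) 0 :=
      (mul_le_mul_of_nonneg_left (le_max_left _ _) h2).trans
        (mul_le_mul_of_nonneg_right h1 (le_max_right _ _))
    unfold om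
    nlinarith
  have htel : ∑ i ∈ range n, ∑ j ∈ range m, b * (dX κ i j - dX u i j) = 0 := by
    rw [Finset.sum_comm]
    refine Finset.sum_eq_zero fun j _ => ?_
    rw [← Finset.mul_sum, Finset.sum_sub_distrib]
    have h1 : ∀ w : ℕ → ℕ → ℝ, Zb n m w → ∑ i ∈ range n, dX w i j = 0 := by
      intro w hw
      have := Finset.sum_range_sub (fun i => w i j) n
      simp only [hw n j (Or.inr (Or.inl le_rfl)), hw 0 j (Or.inl rfl), sub_self] at this
      exact this
    rw [h1 κ hκZ, h1 u hu, sub_self, mul_zero]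
  have hnull := null n m κ v hκZ hv
  -- the rows
  have hrow : 0 ≤ ∑ i ∈ range n, ∑ j ∈ range m, dZ κ i j * (dZ u i j - dZ κ i j) := by
    rw [Finset.sum_comm]
    refine Finset.sum_nonneg fun j _ => ?_
    have h1 := (hk j).mono (hk (j + 1))
    have h2 := shift (fun i => (k (j + 1) i - k j i) * ((u i (j + 1) - u i j) - (k (j + 1) i - k j i)))
      n (by
        have e1 : k (j + 1) n = 0 := (hk (j + 1)).adm.zn n le_rfl
        have e2 : k j n = 0 := (hk j).adm.zn n le_rfl
        have e3 : k (j + 1) 0 = 0 := (hk (j + 1)).adm.z0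
        have e4 : k j 0 = 0 := (hk j).adm.z0
        simp only [e1, e2, e3, e4, sub_self, zero_mul])
    rw [← h2] at h1
    exact h1
  calc (0 : ℝ) ≤ ∑ i ∈ range n, ∑ j ∈ range m, dZ κ i j * (dZ u i j - dZ κ i j) := hrow
    _ ≤ ∑ i ∈ range n, ∑ j ∈ range m,
        (dZ κ i j * dW v i j + 1 / 4 * (dZ u i j - dW v i j) ^ 2) := by
      refine Finset.sum_le_sum fun i _ => Finset.sum_le_sum fun j _ => ?_
      nlinarith [sq_nonneg (1 / 2 * (dZ u i j - dW v i j) - dZ κ i j)]
    _ = ∑ i ∈ range n, ∑ j ∈ range m, (b * (dX κ i j - dX u i j) + dX κ i j * dY v i j +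
        1 / 4 * (dZ u i j - dW v i j) ^ 2) := by
      simp only [Finset.sum_add_distrib]
      rw [htel, hnull, zero_add]
    _ ≤ _ := Finset.sum_le_sum fun i hi => Finset.sum_le_sum fun j hj => hpt i hi j hj

end Pool.Agent.H643.SM
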