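import Pool.Agent.H300.SM.Stm

/-!
# SUP: support of a discrete function of the monotone class by a mixture of quadrant functions
-/

set_option autoImplicit false

open Pool.Agent.H300.SM Finset

namespace Pool.Agent.H337.SM

/-! ### indicators -/

/-- indicator of `l < t` -/
noncomputable def ind (t l : ℝ) : ℝ := if l < t then 1 else 0

theorem ind_anti (t : ℝ) : Antitone (ind t) := by
  intro l l' h
  unfold ind
  split_ifs with h1 h2
  · exact le_rfl
  · exact absurd (lt_of_le_of_lt h h1) h2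
  · exact zero_le_one
  · exact le_rfl

theorem ind_ii (t a b : ℝ) : IntervalIntegrable (ind t) MeasureTheory.volume a b :=
  (ind_anti t).intervalIntegrable

theorem ind_int {t c : ℝ} (h0 : 0 ≤ t) (hc : t ≤ c) : ∫ l in (0 : ℝ)..c, ind t l = t := by
  have h1 : ∫ l in (0 : ℝ)..t, ind t l = t := by
    have e : ∫ l in (0 : ℝ)..t, ind t l = ∫ l in (0 : ℝ)..t, (1 : ℝ) := by
      rw [intervalIntegral.integral_of_le h0, intervalIntegral.integral_of_le h0,
        MeasureTheory.integral_Ioc_eq_integral_Ioo, MeasureTheory.integral_Ioc_eq_integral_Ioo]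
      refine MeasureTheory.setIntegral_congr_fun measurableSet_Ioo fun l hl => ?_
      exact if_pos hl.2
    rw [e]
    simp
  have h2 : ∫ l in t..c, ind t l = 0 := by
    have e : ∫ l in t..c, ind t l = ∫ l in t..c, (0 : ℝ) := by
      rw [intervalIntegral.integral_of_le hc, intervalIntegral.integral_of_le hc]
      refine MeasureTheory.setIntegral_congr_fun measurableSet_Ioc fun l hl => ?_
      exact if_neg (not_lt.2 hl.1.le)
    rw [e]
    simp
  rw [← intervalIntegral.integral_add_adjacent_intervals (ind_ii t 0 t) (ind_ii t t c), h1, h2,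
    add_zero]

theorem ind_mul (s t l : ℝ) : ind s l * ind t l = ind (min s t) l := by
  unfold ind
  by_cases h1 : l < s <;> by_cases h2 : l < t <;> simp [h1, h2]

/-- double sums of indicators -/
noncomputable def G (t : ℕ → ℕ → ℝ) (x y : ℕ) (l : ℝ) : ℝ :=
  ∑ k ∈ range x, ∑ q ∈ range y, ind (t k q) l

theorem G_ii (t : ℕ → ℕ → ℝ) (x y : ℕ) (a b : ℝ) :
    IntervalIntegrable (G t x y) MeasureTheory.volume a b := by
  have e : G t x y = ∑ k ∈ range x, ∑ q ∈ range y, ind (t k q) := by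
    funext l
    simp only [G, Finset.sum_apply]
  rw [e]
  refine IntervalIntegrable.sum _ fun k _ => ?_
  exact IntervalIntegrable.sum _ fun q _ => ind_ii _ _ _

theorem G_int {t : ℕ → ℕ → ℝ} {c : ℝ} (ht : ∀ k q, 0 ≤ t k q ∧ t k q ≤ c) (x y : ℕ) :
    ∫ l in (0 : ℝ)..c, G t x y l = ∑ k ∈ range x, ∑ q ∈ range y, t k q := by
  unfold G
  rw [intervalIntegral.integral_finsetSum]
  · refine Finset.sum_congr rfl fun k _ => ?_
    rw [intervalIntegral.integral_finsetSum]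
    · exact Finset.sum_congr rfl fun q _ => ind_int (ht k q).1 (ht k q).2
    · exact fun q _ => ind_ii _ _ _
  · intro k _
    have e : (fun l => ∑ q ∈ range y, ind (t k q) l) = ∑ q ∈ range y, ind (t k q) := by
      funext l
      simp only [Finset.sum_apply]
    rw [e]
    exact IntervalIntegrable.sum _ fun q _ => ind_ii _ _ _

/-! ### counting -/

/-- number of `k < x` with `l < A k` -/
noncomputable def cnt (A : ℕ → ℝ) (x : ℕ) (l : ℝ) : ℕ := ((range x).filter fun k => l < A k).card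

theorem cnt_anti (A : ℕ → ℝ) (x : ℕ) : Antitone (cnt A x) := by
  intro l l' h
  refine Finset.card_le_card fun k hk => ?_
  rw [Finset.mem_filter] at hk ⊢
  exact ⟨hk.1, lt_of_le_of_lt h hk.2⟩

theorem cnt_le (A : ℕ → ℝ) (x : ℕ) (l : ℝ) : cnt A x l ≤ x :=
  (Finset.card_filter_le _ _).trans (by rw [Finset.card_range])

theorem cnt_sum (A : ℕ → ℝ) (x : ℕ) (l : ℝ) : ∑ k ∈ range x, ind (A k) l = cnt A x l := by
  unfold ind cnt
  rw [Finset.sum_boole]

theorem cnt_min {A : ℕ → ℝ} (hA : Antitone A) {x T : ℕ} (hx : x ≤ T) (l : ℝ) :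
    cnt A x l = min x (cnt A T l) := by
  have hmono : cnt A x l ≤ cnt A T l := by
    refine Finset.card_le_card (Finset.filter_subset_filter _ ?_)
    exact Finset.range_subset_range.2 hx
  by_cases h : ∀ k < x, l < A k
  · have h1 : cnt A x l = x := by
      unfold cnt
      rw [Finset.filter_true_of_mem fun k hk => h k (Finset.mem_range.1 hk), Finset.card_range]
    rw [h1] at hmono ⊢
    exact (min_eq_left hmono).symm
  · push Not at h
    obtain ⟨k, hk, h2⟩ := h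
    have h3 : cnt A T l = cnt A x l := by
      unfold cnt
      congr 1
      ext n
      rw [Finset.mem_filter, Finset.mem_filter, Finset.mem_range, Finset.mem_range]
      constructor
      · rintro ⟨h4, h5⟩
        refine ⟨?_, h5⟩
        by_contra h6
        have h7 := hA (show k ≤ n by omega)
        linarith
      · rintro ⟨h4, h5⟩
        exact ⟨by omega, h5⟩
    rw [h3]
    exact (min_eq_right (cnt_le A x l)).symm

/-! ### the quadrant functions -/

theorem om_swap (a b x y : ℝ) : om a b x y = om b a y x := by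
  unfold om
  ring

theorem om_pp (a b : ℕ) {x y : ℝ} (hx : 0 ≤ x) (hy : 0 ≤ y) : om a b x y = x * y := by
  unfold om
  rw [max_eq_left (by positivity), max_eq_left (by positivity)]
  ring

theorem om_np (a b x : ℕ) {y : ℝ} (hy : 0 ≤ y) :
    om a b (-(x : ℝ)) y = -((min x a : ℕ) : ℝ) * y + b * (x - ((min x a : ℕ) : ℝ)) := by
  unfold om
  rw [max_eq_left (show 0 ≤ y + b by positivity)]
  rcases le_total x a with h | h
  · have h' : (x : ℝ) ≤ a := by exact_mod_cast h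
    rw [max_eq_left (by linarith), min_eq_left h]
    ring
  · have h' : (a : ℝ) ≤ x := by exact_mod_cast h
    rw [max_eq_right (by linarith), min_eq_right h]
    ring

theorem om_nn (a b x y : ℕ) : om a b (-(x : ℝ)) (-(y : ℝ)) =
    ((min x a : ℕ) : ℝ) * ((min y b : ℕ) : ℝ) + b * (x - ((min x a : ℕ) : ℝ)) +
      a * (y - ((min y b : ℕ) : ℝ)) := by
  unfold om
  rcases le_total x a with h | h <;> rcases le_total y b with h2 | h2
  · have h' : (x : ℝ) ≤ a := by exact_mod_cast h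
    have h2' : (y : ℝ) ≤ b := by exact_mod_cast h2
    rw [max_eq_left (by linarith), max_eq_left (by linarith), min_eq_left h, min_eq_left h2]
    ring
  · have h' : (x : ℝ) ≤ a := by exact_mod_cast h
    have h2' : (b : ℝ) ≤ y := by exact_mod_cast h2
    rw [max_eq_left (by linarith), max_eq_right (by linarith), min_eq_left h, min_eq_right h2]
    ring
  · have h' : (a : ℝ) ≤ x := by exact_mod_cast h
    have h2' : (y : ℝ) ≤ b := by exact_mod_cast h2
    rw [max_eq_right (by linarith), max_eq_left (by linarith), min_eq_right h, min_eq_left h2]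
    ring
  · have h' : (a : ℝ) ≤ x := by exact_mod_cast h
    have h2' : (b : ℝ) ≤ y := by exact_mod_cast h2
    rw [max_eq_right (by linarith), max_eq_right (by linarith), min_eq_right h, min_eq_right h2]
    ring

/-! ### discrete convexity -/

theorem conv_ge {h : ℤ → ℝ} (hc : ∀ i, 2 * h i ≤ h (i + 1) + h (i - 1)) (i : ℤ) :
    h 0 + i * (h 1 - h 0) ≤ h i := by
  have hd : ∀ i, h i - h (i - 1) ≤ h (i + 1) - h i := fun i => by linarith [hc i]
  have hp : ∀ n : ℕ, h 1 - h 0 ≤ h ((n : ℤ) + 1) - h n := by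
    intro n
    induction n with
    | zero => simp
    | succ n ih =>
      have h1 := hd ((n : ℤ) + 1)
      rw [add_sub_cancel_right] at h1
      push_cast
      linarith
  have hn : ∀ n : ℕ, h (-(n : ℤ) + 1) - h (-(n : ℤ)) ≤ h 1 - h 0 := by
    intro n
    induction n with
    | zero => simp
    | succ n ih =>
      have h1 := hd (-(n : ℤ))
      have e1 : -(((n + 1 : ℕ) : ℤ)) + 1 = -(n : ℤ) := by push_cast; ring
      have e2 : -(((n + 1 : ℕ) : ℤ)) = -(n : ℤ) - 1 := by push_cast; ring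
      rw [e1, e2]
      linarith
  have hP : ∀ n : ℕ, h 0 + n * (h 1 - h 0) ≤ h n := by
    intro n
    induction n with
    | zero => simp
    | succ n ih =>
      have h1 := hp n
      push_cast
      linarith
  have hN : ∀ n : ℕ, h 0 - n * (h 1 - h 0) ≤ h (-(n : ℤ)) := by
    intro n
    induction n with
    | zero => simp
    | succ n ih =>
      have h1 := hn (n + 1)
      have e1 : -(((n + 1 : ℕ) : ℤ)) + 1 = -(n : ℤ) := by push_cast; ring
      rw [e1] at h1
      push_cast at h1 ⊢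
      linarith
  rcases Int.eq_nat_or_neg i with ⟨n, rfl | rfl⟩
  · exact_mod_cast hP n
  · have h1 := hN n
    push_cast
    linarith

/-! ### the array -/

/-- the hypotheses -/
structure Hyp (F : ℤ → ℤ → ℝ) : Prop where
  z : F 0 0 = 0
  o1 : F 1 0 = 0
  o2 : F 0 1 = 0
  c1 : ∀ i j, 2 * F i j ≤ F (i + 1) j + F (i - 1) j
  c2 : ∀ i j, 2 * F i j ≤ F i (j + 1) + F i (j - 1)
  p : ∀ i j, 0 ≤ cc F i j
  m1 : ∀ i j, cc F i j ≤ cc F (i + 1) j
  m2 : ∀ i j, cc F i j ≤ cc F i (j + 1)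

theorem cc_swap (F : ℤ → ℤ → ℝ) (i j : ℤ) : cc (fun i j => F j i) i j = cc F j i := by
  unfold cc
  ring

theorem Hyp.swap {F : ℤ → ℤ → ℝ} (h : Hyp F) : Hyp (fun i j => F j i) where
  z := h.z
  o1 := h.o2
  o2 := h.o1
  c1 := fun i j => h.c2 j i
  c2 := fun i j => h.c1 j i
  p := fun i j => by rw [cc_swap]; exact h.p j i
  m1 := fun i j => by rw [cc_swap F i j, cc_swap F (i + 1) j]; exact h.m2 j i
  m2 := fun i j => by rw [cc_swap F i j, cc_swap F i (j + 1)]; exact h.m1 j i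

theorem mono_of_step {u : ℤ → ℝ} (h : ∀ i, u i ≤ u (i + 1)) : Monotone u :=
  monotone_int_of_le_succ h

theorem Hyp.M1 {F : ℤ → ℤ → ℝ} (h : Hyp F) (j : ℤ) : Monotone fun i => cc F i j :=
  mono_of_step fun i => h.m1 i j

theorem Hyp.M2 {F : ℤ → ℤ → ℝ} (h : Hyp F) (i : ℤ) : Monotone fun j => cc F i j :=
  mono_of_step fun j => h.m2 i j

/-- `A_k` -/
def AA (F : ℤ → ℤ → ℝ) (k : ℕ) : ℝ := cc F (-1 - k) 0

/-- `B_k` -/
def BB (F : ℤ → ℤ → ℝ) (k : ℕ) : ℝ := cc F 0 (-1 - k)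

/-- `c_{-1-k,-1-q}` -/
def CC (F : ℤ → ℤ → ℝ) (k q : ℕ) : ℝ := cc F (-1 - k) (-1 - q)

theorem AA_swap (F : ℤ → ℤ → ℝ) : AA (fun i j => F j i) = BB F := by
  funext k
  exact cc_swap F _ _

theorem BB_swap (F : ℤ → ℤ → ℝ) : BB (fun i j => F j i) = AA F := by
  funext k
  exact cc_swap F _ _

theorem CC_swap (F : ℤ → ℤ → ℝ) (k q : ℕ) : CC (fun i j => F j i) k q = CC F q k :=
  cc_swap F _ _

theorem AA_anti {F : ℤ → ℤ → ℝ} (h : Hyp F) : Antitone (AA F) := by
  intro k k' hk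
  exact h.M1 0 (by omega : (-1 - (k' : ℤ)) ≤ -1 - (k : ℤ))

theorem BB_anti {F : ℤ → ℤ → ℝ} (h : Hyp F) : Antitone (BB F) := by
  intro k k' hk
  exact h.M2 0 (by omega : (-1 - (k' : ℤ)) ≤ -1 - (k : ℤ))

theorem AA_bd {F : ℤ → ℤ → ℝ} (h : Hyp F) (k : ℕ) : 0 ≤ AA F k ∧ AA F k ≤ cc F 0 0 :=
  ⟨h.p _ _, h.M1 0 (by omega : (-1 - (k : ℤ)) ≤ 0)⟩

theorem BB_bd {F : ℤ → ℤ → ℝ} (h : Hyp F) (k : ℕ) : 0 ≤ BB F k ∧ BB F k ≤ cc F 0 0 :=
  ⟨h.p _ _, h.M2 0 (by omega : (-1 - (k : ℤ)) ≤ 0)⟩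

theorem CC_le {F : ℤ → ℤ → ℝ} (h : Hyp F) (k q : ℕ) : CC F k q ≤ min (AA F k) (BB F q) :=
  le_min (h.M2 _ (by omega : (-1 - (q : ℤ)) ≤ 0)) (h.M1 _ (by omega : (-1 - (k : ℤ)) ≤ 0))

theorem min_bd {F : ℤ → ℤ → ℝ} (h : Hyp F) (k q : ℕ) :
    0 ≤ min (AA F k) (BB F q) ∧ min (AA F k) (BB F q) ≤ cc F 0 0 :=
  ⟨le_min (AA_bd h k).1 (BB_bd h q).1, (min_le_left _ _).trans (AA_bd h k).2⟩

/-! ### telescoping -/

theorem row_neg (F : ℤ → ℤ → ℝ) (i : ℤ) (y : ℕ) :
    F (i + 1) 0 - F i 0 - (F (i + 1) (-(y : ℤ)) - F i (-(y : ℤ))) =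
      ∑ q ∈ range y, cc F i (-1 - q) := by
  induction y with
  | zero => simp
  | succ y ih =>
    rw [Finset.sum_range_succ, ← ih]
    unfold cc
    have e1 : (-1 - (y : ℤ)) + 1 = -(y : ℤ) := by ring
    have e2 : -(((y + 1 : ℕ) : ℤ)) = -1 - (y : ℤ) := by push_cast; ring
    rw [e1, e2]
    ring

theorem sq_neg (F : ℤ → ℤ → ℝ) (x y : ℕ) :
    F 0 0 - F (-(x : ℤ)) 0 - F 0 (-(y : ℤ)) + F (-(x : ℤ)) (-(y : ℤ)) =
      ∑ k ∈ range x, ∑ q ∈ range y, CC F k q := by
  induction x with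
  | zero => simp
  | succ x ih =>
    rw [Finset.sum_range_succ, ← ih]
    have h := row_neg F (-1 - x) y
    have e1 : (-1 - (x : ℤ)) + 1 = -(x : ℤ) := by ring
    have e2 : -(((x + 1 : ℕ) : ℤ)) = -1 - (x : ℤ) := by push_cast; ring
    rw [e1] at h
    unfold CC
    rw [← h, e2]
    ring

theorem row_pos (F : ℤ → ℤ → ℝ) (i : ℤ) (y : ℕ) :
    F (i + 1) y - F i y - (F (i + 1) 0 - F i 0) = ∑ q ∈ range y, cc F i q := by
  induction y with
  | zero => simp
  | succ y ih =>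
    rw [Finset.sum_range_succ, ← ih]
    unfold cc
    push_cast
    ring

theorem sq_pos (F : ℤ → ℤ → ℝ) (x y : ℕ) :
    F x y - F x 0 - F 0 y + F 0 0 = ∑ k ∈ range x, ∑ q ∈ range y, cc F k q := by
  induction x with
  | zero => simp
  | succ x ih =>
    rw [Finset.sum_range_succ, ← ih, ← row_pos F x y]
    push_cast
    ring

theorem col_one (F : ℤ → ℤ → ℝ) (x : ℕ) :
    F 0 1 - F 0 0 - (F (-(x : ℤ)) 1 - F (-(x : ℤ)) 0) = ∑ k ∈ range x, AA F k := by
  induction x with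
  | zero => simp
  | succ x ih =>
    rw [Finset.sum_range_succ, ← ih]
    unfold AA cc
    have e1 : (-1 - (x : ℤ)) + 1 = -(x : ℤ) := by ring
    have e2 : -(((x + 1 : ℕ) : ℤ)) = -1 - (x : ℤ) := by push_cast; ring
    rw [e1, e2, zero_add]
    ring

/-! ### the bounds -/

/-- KEY -/
theorem key {F : ℤ → ℤ → ℝ} (h : Hyp F) (x T : ℕ) :
    ∑ k ∈ range x, ∑ q ∈ range T, (BB F q - CC F k q) ≤ F (-(x : ℤ)) 0 := by
  have h1 := conv_ge (h := fun i => F i (-(T : ℤ))) (fun i => h.c1 i _) (-(x : ℤ))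
  have h2 := row_neg F 0 T
  have h3 := sq_neg F x T
  have e : ∑ q ∈ range T, cc F 0 (-1 - q) = ∑ q ∈ range T, BB F q := rfl
  rw [e, zero_add, h.z, h.o1] at h2
  rw [h.z] at h3
  simp only [Finset.sum_sub_distrib, Finset.sum_const, Finset.card_range, nsmul_eq_mul]
  have h4 : F 0 (-(T : ℤ)) + ((-(x : ℤ) : ℤ) : ℝ) * (F 1 (-(T : ℤ)) - F 0 (-(T : ℤ))) ≤
      F (-(x : ℤ)) (-(T : ℤ)) := h1
  have h5 : F 1 (-(T : ℤ)) - F 0 (-(T : ℤ)) = -∑ q ∈ range T, BB F q := by linarith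
  rw [h5] at h4
  push_cast at h4
  linarith

theorem f_nonneg {F : ℤ → ℤ → ℝ} (h : Hyp F) (i : ℤ) : 0 ≤ F i 0 := by
  have h1 := conv_ge (h := fun i => F i 0) (fun i => h.c1 i _) i
  have h2 : F 0 0 + (i : ℝ) * (F 1 0 - F 0 0) ≤ F i 0 := h1
  rw [h.z, h.o1] at h2
  linarith

/-- first quadrant -/
theorem Q1 {F : ℤ → ℤ → ℝ} (h : Hyp F) (T : ℕ) (x y : ℕ) :
    (∫ l in (0 : ℝ)..cc F 0 0, om (cnt (AA F) T l) (cnt (BB F) T l) (x : ℝ) (y : ℝ)) ≤ F x y := by
  have e : ∀ l, om (cnt (AA F) T l) (cnt (BB F) T l) (x : ℝ) (y : ℝ) = (x : ℝ) * y :=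
    fun l => om_pp _ _ (by positivity) (by positivity)
  simp only [e]
  rw [intervalIntegral.integral_const, sub_zero, smul_eq_mul]
  have h1 := sq_pos F x y
  have h2 := f_nonneg h x
  have h3 : 0 ≤ F 0 y := f_nonneg h.swap y
  have h4 : ∑ k ∈ range x, ∑ q ∈ range y, cc F 0 0 ≤ ∑ k ∈ range x, ∑ q ∈ range y, cc F k q := by
    refine Finset.sum_le_sum fun k _ => Finset.sum_le_sum fun q _ => ?_
    have h5 := h.M1 0 (by omega : (0 : ℤ) ≤ (k : ℤ))
    have h6 := h.M2 (k : ℤ) (by omega : (0 : ℤ) ≤ (q : ℤ))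
    exact le_trans h5 h6
  simp only [Finset.sum_const, Finset.card_range, nsmul_eq_mul] at h4
  rw [h.z] at h1
  have e2 : cc F 0 0 * ((x : ℝ) * y) = (x : ℝ) * ((y : ℝ) * cc F 0 0) := by ring
  rw [e2]
  linarith

/-- second quadrant -/
theorem Q2 {F : ℤ → ℤ → ℝ} (h : Hyp F) {T x : ℕ} (hx : x ≤ T) (y : ℕ) :
    (∫ l in (0 : ℝ)..cc F 0 0, om (cnt (AA F) T l) (cnt (BB F) T l) (-(x : ℝ)) (y : ℝ)) ≤
      F (-(x : ℤ)) y := by
  have e : ∀ l, om (cnt (AA F) T l) (cnt (BB F) T l) (-(x : ℝ)) (y : ℝ) =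
      -(y : ℝ) * G (fun k _ => AA F k) x 1 l + (G (fun _ q => BB F q) x T l -
        G (fun k q => min (AA F k) (BB F q)) x T l) := by
    intro l
    rw [om_np _ _ _ (by positivity), ← cnt_min (AA_anti h) hx l]
    unfold G
    have e1 : ∑ k ∈ range x, ∑ q ∈ range T, ind (min (AA F k) (BB F q)) l =
        (cnt (AA F) x l : ℝ) * cnt (BB F) T l := by
      rw [← cnt_sum, ← cnt_sum, Finset.sum_mul_sum]
      exact Finset.sum_congr rfl fun k _ => Finset.sum_congr rfl fun q _ => (ind_mul _ _ _).symm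
    have e2 : ∑ k ∈ range x, ∑ _q ∈ range 1, ind (AA F k) l = (cnt (AA F) x l : ℝ) := by
      simp only [Finset.sum_range_one, cnt_sum]
    rw [e1, e2]
    simp only [cnt_sum, Finset.sum_const, Finset.card_range, nsmul_eq_mul]
    ring
  simp only [e]
  rw [intervalIntegral.integral_add ((G_ii _ _ _ _ _).const_mul _)
      ((G_ii _ _ _ _ _).sub (G_ii _ _ _ _ _)), intervalIntegral.integral_const_mul,
    intervalIntegral.integral_sub (G_ii _ _ _ _ _) (G_ii _ _ _ _ _),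
    G_int (fun k _ => AA_bd h k), G_int (fun _ q => BB_bd h q), G_int (fun k q => min_bd h k q)]
  have h1 := conv_ge (h := fun j => F (-(x : ℤ)) j) (fun j => h.c2 _ j) (y : ℤ)
  have h2 : F (-(x : ℤ)) 0 + ((y : ℤ) : ℝ) * (F (-(x : ℤ)) 1 - F (-(x : ℤ)) 0) ≤
      F (-(x : ℤ)) y := h1
  have h3 := col_one F x
  rw [h.z, h.o2] at h3
  have h4 : F (-(x : ℤ)) 1 - F (-(x : ℤ)) 0 = -∑ k ∈ range x, AA F k := by linarith
  rw [h4, Int.cast_natCast] at h2
  have h5 := key h x T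
  have h6 : ∑ k ∈ range x, ∑ q ∈ range T, CC F k q ≤
      ∑ k ∈ range x, ∑ q ∈ range T, min (AA F k) (BB F q) :=
    Finset.sum_le_sum fun k _ => Finset.sum_le_sum fun q _ => CC_le h k q
  simp only [Finset.sum_sub_distrib] at h5
  simp only [Finset.sum_range_one]
  linarith

/-- third quadrant -/
theorem Q3 {F : ℤ → ℤ → ℝ} (h : Hyp F) {T x y : ℕ} (hx : x ≤ T) (hy : y ≤ T) :
    (∫ l in (0 : ℝ)..cc F 0 0, om (cnt (AA F) T l) (cnt (BB F) T l) (-(x : ℝ)) (-(y : ℝ))) ≤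
      F (-(x : ℤ)) (-(y : ℤ)) := by
  have e : ∀ l, om (cnt (AA F) T l) (cnt (BB F) T l) (-(x : ℝ)) (-(y : ℝ)) =
      G (fun k q => min (AA F k) (BB F q)) x y l + (G (fun _ q => BB F q) x T l -
        G (fun k q => min (AA F k) (BB F q)) x T l) + (G (fun k _ => AA F k) T y l -
        G (fun k q => min (AA F k) (BB F q)) T y l) := by
    intro l
    rw [om_nn, ← cnt_min (AA_anti h) hx l, ← cnt_min (BB_anti h) hy l]
    unfold G
    have e1 : ∀ a b : ℕ, ∑ k ∈ range a, ∑ q ∈ range b, ind (min (AA F k) (BB F q)) l =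
        (cnt (AA F) a l : ℝ) * cnt (BB F) b l := by
      intro a b
      rw [← cnt_sum, ← cnt_sum, Finset.sum_mul_sum]
      exact Finset.sum_congr rfl fun k _ => Finset.sum_congr rfl fun q _ => (ind_mul _ _ _).symm
    rw [e1, e1, e1]
    have e2 : ∑ k ∈ range T, ∑ _q ∈ range y, ind (AA F k) l = (y : ℝ) * cnt (AA F) T l := by
      simp only [Finset.sum_const, Finset.card_range, nsmul_eq_mul]
      rw [← Finset.mul_sum, cnt_sum]
    rw [e2]
    simp only [cnt_sum, Finset.sum_const, Finset.card_range, nsmul_eq_mul]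
    ring
  simp only [e]
  rw [intervalIntegral.integral_add ((G_ii _ _ _ _ _).add ((G_ii _ _ _ _ _).sub (G_ii _ _ _ _ _)))
      ((G_ii _ _ _ _ _).sub (G_ii _ _ _ _ _)),
    intervalIntegral.integral_add (G_ii _ _ _ _ _) ((G_ii _ _ _ _ _).sub (G_ii _ _ _ _ _)),
    intervalIntegral.integral_sub (G_ii _ _ _ _ _) (G_ii _ _ _ _ _),
    intervalIntegral.integral_sub (G_ii _ _ _ _ _) (G_ii _ _ _ _ _),
    G_int (fun k _ => AA_bd h k), G_int (fun _ q => BB_bd h q), G_int (fun k q => min_bd h k q),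
    G_int (fun k q => min_bd h k q), G_int (fun k q => min_bd h k q)]
  have h1 := sq_neg F x y
  rw [h.z] at h1
  have h2 := key h x T
  have h3 := key h.swap y T
  simp only [BB_swap F, CC_swap F] at h3
  rw [Finset.sum_comm] at h3
  have h4 : ∀ a b : ℕ, ∑ k ∈ range a, ∑ q ∈ range b, (min (AA F k) (BB F q) - CC F k q) =
      (∑ k ∈ range a, ∑ q ∈ range b, min (AA F k) (BB F q)) -
        ∑ k ∈ range a, ∑ q ∈ range b, CC F k q := by
    intro a b
    simp only [Finset.sum_sub_distrib]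
  have h5 : ∀ k q, 0 ≤ min (AA F k) (BB F q) - CC F k q := fun k q => sub_nonneg.2 (CC_le h k q)
  have h6 : ∑ k ∈ range x, ∑ q ∈ range y, (min (AA F k) (BB F q) - CC F k q) ≤
      ∑ k ∈ range x, ∑ q ∈ range T, (min (AA F k) (BB F q) - CC F k q) := by
    refine Finset.sum_le_sum fun k _ => ?_
    exact Finset.sum_le_sum_of_subset_of_nonneg (Finset.range_subset_range.2 hy)
      (fun q _ _ => h5 k q)
  have h7 : 0 ≤ ∑ k ∈ range T, ∑ q ∈ range y, (min (AA F k) (BB F q) - CC F k q) :=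
    Finset.sum_nonneg fun k _ => Finset.sum_nonneg fun q _ => h5 k q
  rw [h4, h4] at h6
  rw [h4] at h7
  simp only [Finset.sum_sub_distrib] at h2 h3
  have h8 : F 0 (-(y : ℤ)) = (fun i j => F j i) (-(y : ℤ)) 0 := rfl
  linarith

theorem t_SUP : S_SUP := by
  intro F T z o1 o2 c1 c2 p m1 m2
  have h : Hyp F := ⟨z, o1, o2, c1, c2, p, m1, m2⟩
  refine ⟨cnt (AA F) T, cnt (BB F) T, cnt_anti _ _, cnt_anti _ _, cnt_le _ _, cnt_le _ _, ?_⟩
  intro i j hi hj
  rcases Int.eq_nat_or_neg i with ⟨x, rfl | rfl⟩ <;> rcases Int.eq_nat_or_neg j with ⟨y, rfl | rfl⟩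
  · have h1 := Q1 h T x y
    simpa only [Int.cast_natCast] using h1
  · have hy : y ≤ T := by omega
    have h1 := Q2 h.swap hy x
    rw [AA_swap F, BB_swap F, cc_swap F] at h1
    simp only [om_swap _ _ (-(y : ℝ)) (x : ℝ)] at h1
    simpa only [Int.cast_natCast, Int.cast_neg] using h1
  · have hx : x ≤ T := by omega
    have h1 := Q2 h hx y
    simpa only [Int.cast_natCast, Int.cast_neg] using h1
  · have hx : x ≤ T := by omega
    have hy : y ≤ T := by omega
    have h1 := Q3 h hx hy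
    simpa only [Int.cast_natCast, Int.cast_neg] using h1

end Pool.Agent.H337.SM
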