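import Pool.Agent.H300.SM.Stm

/-!
# TILE: the integral over the plane as integral over a cell of sums over the shifted grids
-/

set_option autoImplicit false

open Pool.Agent.H300.SM Finset MeasureTheory

namespace Pool.Agent.H181.SM

/-- one dimension -/
lemma one_dim {f : ℝ → ℝ} (hf : Continuous f) {R h P : ℝ} (n : ℕ)
    (h0 : ∀ x, R < |x| → f x = 0) (hP : P ≤ -R) (hn : R ≤ P + n * h) (hh : 0 < h) (hR : 0 < R) :
    ∫ x, f x = ∫ s in (0 : ℝ)..h, ∑ i ∈ range n, f (P + s + i * h) := by
  have hint : ∀ a b : ℝ, IntervalIntegrable f volume a b := fun a b => hf.intervalIntegrable a b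
  have hle : P ≤ P + n * h := by
    have : 0 ≤ (n : ℝ) * h := by positivity
    linarith
  have e1 : ∫ x, f x = ∫ x in P..(P + n * h), f x := by
    rw [intervalIntegral.integral_of_le hle, ← integral_Icc_eq_integral_Ioc,
      setIntegral_eq_integral_of_forall_compl_eq_zero]
    intro x hx
    apply h0
    rw [Set.mem_Icc, not_and_or, not_le, not_le] at hx
    rcases hx with hx | hx
    · rw [lt_abs]
      right
      linarith
    · rw [lt_abs]
      left
      linarith
  have e2 := intervalIntegral.sum_integral_adjacent_intervals (f := f) (μ := volume)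
    (a := fun i : ℕ => P + i * h) (n := n) (fun i _ => hint _ _)
  simp only [Nat.cast_zero, zero_mul, add_zero] at e2
  rw [e1, ← e2, intervalIntegral.integral_finsetSum]
  · refine Finset.sum_congr rfl fun i _ => ?_
    have e3 := intervalIntegral.integral_comp_add_left (a := 0) (b := h) f (P + i * h)
    rw [add_zero] at e3
    have e4 : P + ((i + 1 : ℕ) : ℝ) * h = P + i * h + h := by
      push_cast
      ring
    rw [e4, ← e3]
    refine intervalIntegral.integral_congr fun s _ => ?_
    show f (P + i * h + s) = f (P + s + i * h)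
    congr 1
    ring
  · intro i _
    exact (hf.comp (by fun_prop)).intervalIntegrable _ _

theorem t_TILE : S_TILE := by
  intro g R h k hg hR hh hk h0 hsum
  -- the integral as an iterated integral
  have hgc : Continuous (fun p : ℝ × ℝ => g ![p.1, p.2]) := by
    apply hg.comp
    apply continuous_pi
    intro i
    fin_cases i
    · exact continuous_fst
    · exact continuous_snd
  have hcs : HasCompactSupport (fun p : ℝ × ℝ => g ![p.1, p.2]) := by
    refine HasCompactSupport.intro ((isCompact_Icc (a := -R) (b := R)).prod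
      (isCompact_Icc (a := -R) (b := R))) fun p hp => ?_
    apply h0
    by_contra hcon
    push Not at hcon
    apply hp
    have h1 := hcon.1
    have h2 := hcon.2
    simp only [Matrix.cons_val_zero, Matrix.cons_val_one] at h1 h2
    exact ⟨abs_le.1 h1, abs_le.1 h2⟩
  have e0 : ∫ x, g x = ∫ p : ℝ × ℝ, g ![p.1, p.2] := by
    have h1 := (volume_preserving_finTwoArrow ℝ).symm.integral_comp'
      (g := g)
    rw [← h1]
    rfl
  obtain ⟨n, hn⟩ : ∃ n : ℕ, 2 * R + h ≤ n * h := by
    obtain ⟨n, hn⟩ := exists_nat_ge ((2 * R + h) / h)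
    exact ⟨n, (div_le_iff₀ hh).1 hn⟩
  obtain ⟨m, hm⟩ : ∃ m : ℕ, 2 * R + k ≤ m * k := by
    obtain ⟨m, hm⟩ := exists_nat_ge ((2 * R + k) / k)
    exact ⟨m, (div_le_iff₀ hk).1 hm⟩
  obtain ⟨P, hP⟩ : ∃ P : ℝ, P = -R - h := ⟨_, rfl⟩
  obtain ⟨Q, hQ⟩ : ∃ Q : ℝ, Q = -R - k := ⟨_, rfl⟩
  -- the inner integral
  have hinner : ∀ s : ℝ, ∫ r, g ![s, r] =
      ∫ r in (0 : ℝ)..k, ∑ j ∈ range m, g ![s, Q + r + j * k] := by
    intro s
    refine one_dim (f := fun r => g ![s, r]) (R := R) ?_ m (fun x hx => ?_) (by linarith)
      (by linarith) hk hR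
    · exact hgc.comp (by fun_prop : Continuous fun r : ℝ => (s, r))
    · apply h0
      right
      simpa using hx
  have hFc : Continuous (fun s => ∫ r, g ![s, r]) := by
    have h1 : (fun s => ∫ r, g ![s, r]) =
        fun s => ∫ r in (0 : ℝ)..k, ∑ j ∈ range m, g ![s, Q + r + j * k] := funext hinner
    rw [h1]
    apply intervalIntegral.continuous_parametric_intervalIntegral_of_continuous'
    apply continuous_finsetSum
    intro j _
    exact hgc.comp (by fun_prop : Continuous fun p : ℝ × ℝ => (p.1, Q + p.2 + j * k))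
  have hF0 : ∀ s, R < |s| → ∫ r, g ![s, r] = 0 := by
    intro s hs
    have h1 : (fun r => g ![s, r]) = fun _ => 0 := by
      funext r
      apply h0
      left
      simpa using hs
    rw [h1, integral_zero]
  have e1 : ∫ x, g x = ∫ s, ∫ r, g ![s, r] := by
    rw [e0]
    exact integral_prod (fun p : ℝ × ℝ => g ![p.1, p.2]) (hgc.integrable_of_hasCompactSupport hcs)
  rw [e1, one_dim hFc n hF0 (by linarith : P ≤ -R) (by linarith) hh hR]
  apply intervalIntegral.integral_nonneg hh.le
  intro s hs
  have e2 : ∑ i ∈ range n, ∫ r, g ![P + s + i * h, r] =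
      ∫ r in (0 : ℝ)..k, ∑ i ∈ range n, ∑ j ∈ range m, g ![P + s + i * h, Q + r + j * k] := by
    rw [intervalIntegral.integral_finsetSum]
    · exact Finset.sum_congr rfl fun i _ => hinner _
    · intro i _
      apply Continuous.intervalIntegrable
      apply continuous_finsetSum
      intro j _
      exact hgc.comp (by fun_prop : Continuous fun r : ℝ => (P + s + i * h, Q + r + j * k))
  rw [e2]
  apply intervalIntegral.integral_nonneg hk.le
  intro r hr
  have h1 := hsum ![P + s, Q + r] n m (show P + s ≤ -R by linarith [hs.2])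
    (show Q + r ≤ -R by linarith [hr.2]) (show R ≤ P + s + n * h by linarith [hs.1])
    (show R ≤ Q + r + m * k by linarith [hr.1])
  refine h1.trans (le_of_eq ?_)
  refine Finset.sum_congr rfl fun i _ => Finset.sum_congr rfl fun j _ => ?_
  congr 1
  funext l
  fin_cases l <;> simp

end Pool.Agent.H181.SM
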