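import Pool.Agent.H300.SM.Sharp
import Pool.Agent.H300.SM.Proj
import Pool.Agent.H300.SM.Sup
import Pool.Agent.H300.SM.MonoT
import Pool.Agent.H300.SM.DQ
import Pool.Agent.H300.SM.Tile

/-!
# The classes of functions, the threshold
-/

set_option autoImplicit false

namespace Pool.Agent.H300.SM

open MeasureTheory Set Finset Filter Topology
open Pool.Agent.Q246.MM (Cl W4 WM qc_add qc_smul qc_mono qc_convex continuous_W4)
open Pool.Agent.Q82.MD (Quasiconvex)

theorem h_cont : S_CONT := t_CONT Pool.Agent.H962.SM.t_DQ Pool.Agent.H181.SM.t_TILE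

theorem h_mono : S_MONO := Pool.Agent.H962.SM.t_MONO Pool.Agent.H643.SM.t_PROJ
  Pool.Agent.H337.SM.t_SUP

theorem Mono.cl {ψ : ℝ → ℝ → ℝ} {K : ℝ} (h : Mono ψ K) : Cl ψ K := ⟨h.1.1, h.1.2, h.2.1⟩

/-- `S(K)`: at every point the function has a minorant touching it there, which is a finite sum of
functions of monotone classes, the sum of the constants being at most `K` -/
def Supp (ψ : ℝ → ℝ → ℝ) (K : ℝ) : Prop :=
  ∀ A B : ℝ, ∃ (n : ℕ) (φ : Fin n → ℝ → ℝ → ℝ) (κ : Fin n → ℝ),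
    (∀ i, Mono (φ i) (κ i)) ∧ ∑ i, κ i ≤ K ∧ (∀ x y, ∑ i, φ i x y ≤ ψ x y) ∧
      ∑ i, φ i A B = ψ A B

theorem Mono.supp {ψ : ℝ → ℝ → ℝ} {K : ℝ} (h : Mono ψ K) : Supp ψ K := by
  intro A B
  refine ⟨1, fun _ => ψ, fun _ => K, fun _ => h, ?_, ?_, ?_⟩ <;> simp

/-- sums -/
theorem cl_sum {n : ℕ} {φ : Fin n → ℝ → ℝ → ℝ} {κ : Fin n → ℝ} (h : ∀ i, Cl (φ i) (κ i)) :
    Cl (fun x y => ∑ i, φ i x y) (∑ i, κ i) := by
  refine ⟨fun y => ?_, fun x => ?_, fun x x' y y' => ?_⟩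
  · refine ⟨convex_univ, fun a _ b _ u v hu hv huv => ?_⟩
    simp only [smul_eq_mul, Finset.mul_sum, ← Finset.sum_add_distrib]
    exact Finset.sum_le_sum fun i _ => ((h i).1 y).2 (mem_univ a) (mem_univ b) hu hv huv
  · refine ⟨convex_univ, fun a _ b _ u v hu hv huv => ?_⟩
    simp only [smul_eq_mul, Finset.mul_sum, ← Finset.sum_add_distrib]
    exact Finset.sum_le_sum fun i _ => ((h i).2.1 x).2 (mem_univ a) (mem_univ b) hu hv huv
  · have e : ∑ i, φ i x' y' - ∑ i, φ i x' y - ∑ i, φ i x y' + ∑ i, φ i x y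
        = ∑ i, (φ i x' y' - φ i x' y - φ i x y' + φ i x y) := by
      simp only [← Finset.sum_sub_distrib, ← Finset.sum_add_distrib]
    rw [e, Finset.sum_mul, Finset.sum_mul]
    exact (Finset.abs_sum_le_sum_abs _ _).trans (Finset.sum_le_sum fun i _ => (h i).2.2 x x' y y')

theorem di_sum {n : ℕ} {φ : Fin n → ℝ → ℝ → ℝ} {κ : Fin n → ℝ} (h : ∀ i, DI (φ i) (κ i)) :
    DI (fun x y => ∑ i, φ i x y) (∑ i, κ i) := by
  intro A B N M u v hu hv
  have e : ∑ i ∈ range N, ∑ j ∈ range M, ((∑ l, φ l (A + dX u i j) (B + dY v i j)) - ∑ l, φ l A B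
      + (∑ l, κ l) / 2 * (dZ u i j ^ 2 + dW v i j ^ 2))
      = ∑ l, ∑ i ∈ range N, ∑ j ∈ range M, (φ l (A + dX u i j) (B + dY v i j) - φ l A B
        + κ l / 2 * (dZ u i j ^ 2 + dW v i j ^ 2)) := by
    have sw : ∀ F : Fin n → ℕ → ℕ → ℝ, ∑ l, ∑ i ∈ range N, ∑ j ∈ range M, F l i j
        = ∑ i ∈ range N, ∑ j ∈ range M, ∑ l, F l i j := by
      intro F
      rw [Finset.sum_comm]
      exact Finset.sum_congr rfl fun i _ => Finset.sum_comm
    rw [sw]
    refine Finset.sum_congr rfl fun i _ => Finset.sum_congr rfl fun j _ => ?_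
    rw [Finset.sum_add_distrib, Finset.sum_sub_distrib, ← Finset.sum_mul, ← Finset.sum_div]
  simp only
  rw [e]
  exact Finset.sum_nonneg fun l _ => h l A B N M u v hu hv

theorem di_weak {ψ : ℝ → ℝ → ℝ} {K K' : ℝ} (h : DI ψ K) (hK : K ≤ K') : DI ψ K' := by
  intro A B N M u v hu hv
  refine (h A B N M u v hu hv).trans (Finset.sum_le_sum fun i _ => Finset.sum_le_sum fun j _ => ?_)
  simp only
  have : K / 2 * (dZ u i j ^ 2 + dW v i j ^ 2) ≤ K' / 2 * (dZ u i j ^ 2 + dW v i j ^ 2) :=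
    mul_le_mul_of_nonneg_right (by linarith) (by positivity)
  linarith

theorem Supp.di {ψ : ℝ → ℝ → ℝ} {K : ℝ} (h : Supp ψ K) : DI ψ K := by
  intro A B N M u v hu hv
  obtain ⟨n, φ, κ, h1, h2, h3, h4⟩ := h A B
  have h5 := di_weak (di_sum (φ := φ) (κ := κ) fun i => di_mono h_mono (h1 i)) h2 A B N M u v hu hv
  refine h5.trans (Finset.sum_le_sum fun i _ => Finset.sum_le_sum fun j _ => ?_)
  simp only
  rw [h4]
  have := h3 (A + dX u i j) (B + dY v i j)
  linarith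

theorem Supp.nonneg {ψ : ℝ → ℝ → ℝ} {K : ℝ} (h : Supp ψ K) : 0 ≤ K := by
  obtain ⟨n, φ, κ, h1, h2, -, -⟩ := h 0 0
  exact (Finset.sum_nonneg fun i _ => mixed_nonneg (h1 i).2.1).trans h2

theorem Supp.sep {ψ : ℝ → ℝ → ℝ} {K : ℝ} (h : Supp ψ K) : SepConvex ψ := by
  refine ⟨fun y => ?_, fun x => ?_⟩
  · refine ⟨convex_univ, fun a _ b _ u v hu hv huv => ?_⟩
    obtain ⟨n, φ, κ, h1, h2, h3, h4⟩ := h (u * a + v * b) y
    have h5 := ((cl_sum fun i => (h1 i).cl).1 y).2 (mem_univ a) (mem_univ b) hu hv huv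
    simp only [smul_eq_mul] at h5 ⊢
    rw [← h4]
    exact h5.trans (add_le_add (mul_le_mul_of_nonneg_left (h3 a y) hu)
      (mul_le_mul_of_nonneg_left (h3 b y) hv))
  · refine ⟨convex_univ, fun a _ b _ u v hu hv huv => ?_⟩
    obtain ⟨n, φ, κ, h1, h2, h3, h4⟩ := h x (u * a + v * b)
    have h5 := ((cl_sum fun i => (h1 i).cl).2.1 x).2 (mem_univ a) (mem_univ b) hu hv huv
    simp only [smul_eq_mul] at h5 ⊢
    rw [← h4]
    exact h5.trans (add_le_add (mul_le_mul_of_nonneg_left (h3 x a) hu)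
      (mul_le_mul_of_nonneg_left (h3 x b) hv))

theorem sep_cont {ψ : ℝ → ℝ → ℝ} (h : SepConvex ψ) : Continuous (fun p : ℝ × ℝ => ψ p.1 p.2) :=
  Pool.Agent.Helper188.Morrey.cont_step ψ h.1 fun x =>
    continuousOn_univ.1 ((h.2 x).continuousOn isOpen_univ)

theorem sep_contV {ψ : ℝ → ℝ → ℝ} (h : SepConvex ψ) :
    Continuous (fun y : Fin 2 → ℝ => ψ (y 0) (y 1)) :=
  (sep_cont h).comp (g := fun p : ℝ × ℝ => ψ p.1 p.2) (f := fun y : Fin 2 → ℝ => (y 0, y 1))
    ((continuous_apply 0).prodMk (continuous_apply 1))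

/-- the threshold -/
theorem qc_thr {ψ : ℝ → ℝ → ℝ} {K : ℝ} (h : Cl ψ K) (hD : DI ψ K) {p q r s : ℝ} (hp : 0 ≤ p)
    (hq : 0 ≤ q) (hr : 0 ≤ r) (hs : 0 ≤ s)
    (hK2 : K ≤ 2 * (Real.sqrt (p * q) + Real.sqrt (r * s))) :
    Quasiconvex (W4 ψ p q r s) := by
  have hK := h.nonneg
  have hψ : Continuous (fun p : ℝ × ℝ => ψ p.1 p.2) := sep_cont ⟨h.1, h.2.1⟩
  set P := Real.sqrt (p * q) with hP
  set R := Real.sqrt (r * s) with hR
  have hP0' : 0 ≤ P := Real.sqrt_nonneg _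
  have hR0' : 0 ≤ R := Real.sqrt_nonneg _
  have hP2 : P ^ 2 = p * q := Real.sq_sqrt (mul_nonneg hp hq)
  have hR2 : R ^ 2 = r * s := Real.sq_sqrt (mul_nonneg hr hs)
  rcases hP0'.eq_or_lt with hP0 | hP0
  · -- no diagonal part
    refine qc_mono h.continuous hp hq le_rfl le_rfl (qc_off h_cont hK hψ hD hr hs ?_)
    rw [← hR]
    linarith
  rcases hK.eq_or_lt with hK0 | hK0
  · refine qc_mono h.continuous hp hq le_rfl le_rfl (qc_off h_cont hK hψ hD hr hs ?_)
    rw [← hR, ← hK0]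
    positivity
  -- the convex part
  have hB : Quasiconvex (W4 ψ (K / 2 * (p / P)) (K / 2 * (q / P)) 0 0) := by
    have hs := h.sc 1 (K / 2 * (p / P)) (K / 2 * (q / P))
    rw [abs_one, one_mul] at hs
    have e : W4 ψ (K / 2 * (p / P)) (K / 2 * (q / P)) 0 0
        = WM (fun y : Pool.Agent.W779.Morrey.V => ψ (1 * y 0) (y 1)
        + (K / 2 * (p / P) * y 0 ^ 2 + K / 2 * (q / P) * y 1 ^ 2)) 0 0 := by
      funext F
      simp [W4, WM]
    rw [e]
    refine qc_convex (by positivity) (by positivity) ?_ hs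
    have : 4 * (K / 2 * (p / P) * (K / 2 * (q / P))) = K ^ 2 * (p * q / P ^ 2) := by
      field_simp
      ring
    rw [this, ← hP2, div_self (by positivity), mul_one]
  rcases hR0'.eq_or_lt with hR1 | hR1
  · refine qc_mono h.continuous (p := K / 2 * (p / P)) (q := K / 2 * (q / P)) (β₁ := 0) (β₂ := 0)
      ?_ ?_ hr hs hB
    · have : K / 2 ≤ P := by linarith
      calc K / 2 * (p / P) ≤ P * (p / P) := mul_le_mul_of_nonneg_right this (by positivity)
        _ = p := by field_simp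
    · have : K / 2 ≤ P := by linarith
      calc K / 2 * (q / P) ≤ P * (q / P) := mul_le_mul_of_nonneg_right this (by positivity)
        _ = q := by field_simp
  -- the off-diagonal part
  have hA : Quasiconvex (W4 ψ 0 0 (K / 2 * (r / R)) (K / 2 * (s / R))) := by
    refine qc_off h_cont hK hψ hD (by positivity) (by positivity) ?_
    have e : K / 2 * (r / R) * (K / 2 * (s / R)) = (K / 2) ^ 2 := by
      have : K / 2 * (r / R) * (K / 2 * (s / R)) = (K / 2) ^ 2 * (r * s / R ^ 2) := by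
        field_simp
      rw [this, ← hR2, div_self (by positivity), mul_one]
    rw [e, Real.sqrt_sq (by positivity)]
    linarith
  set t := min 1 (2 * R / K) with ht
  have ht0 : 0 ≤ t := le_min zero_le_one (by positivity)
  have ht1 : t ≤ 1 := min_le_left _ _
  have htR : t * (K / 2) ≤ R := by
    have : t ≤ 2 * R / K := min_le_right _ _
    calc t * (K / 2) ≤ 2 * R / K * (K / 2) := mul_le_mul_of_nonneg_right this (by positivity)
      _ = R := by field_simp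
  have htP : (1 - t) * (K / 2) ≤ P := by
    rcases le_total 1 (2 * R / K) with h | h
    · have e : t = 1 := min_eq_left h
      rw [e]
      simpa using hP0'
    · have e : t = 2 * R / K := min_eq_right h
      have e2 : t * K = 2 * R := by rw [e]; field_simp
      nlinarith
  have c1 := continuous_W4 h.continuous 0 0 (K / 2 * (r / R)) (K / 2 * (s / R))
  have c2 := continuous_W4 h.continuous (K / 2 * (p / P)) (K / 2 * (q / P)) 0 0
  have b := qc_add (qc_smul hA ht0) (qc_smul hB (by linarith : 0 ≤ 1 - t))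
    (continuous_const.mul c1) (continuous_const.mul c2)
  have e : (fun F => t * W4 ψ 0 0 (K / 2 * (r / R)) (K / 2 * (s / R)) F
      + (1 - t) * W4 ψ (K / 2 * (p / P)) (K / 2 * (q / P)) 0 0 F)
      = W4 ψ ((1 - t) * (K / 2) * (p / P)) ((1 - t) * (K / 2) * (q / P))
        (t * (K / 2) * (r / R)) (t * (K / 2) * (s / R)) := by
    funext F
    simp only [W4]
    ring
  rw [e] at b
  refine qc_mono h.continuous ?_ ?_ ?_ ?_ b
  · calc (1 - t) * (K / 2) * (p / P) ≤ P * (p / P) :=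
        mul_le_mul_of_nonneg_right htP (by positivity)
      _ = p := by field_simp
  · calc (1 - t) * (K / 2) * (q / P) ≤ P * (q / P) :=
        mul_le_mul_of_nonneg_right htP (by positivity)
      _ = q := by field_simp
  · calc t * (K / 2) * (r / R) ≤ R * (r / R) := mul_le_mul_of_nonneg_right htR (by positivity)
      _ = r := by field_simp
  · calc t * (K / 2) * (s / R) ≤ R * (s / R) := mul_le_mul_of_nonneg_right htR (by positivity)
      _ = s := by field_simp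

/-- the threshold for supported functions -/
theorem Supp.qc {ψ : ℝ → ℝ → ℝ} {K : ℝ} (h : Supp ψ K) {p q r s : ℝ} (hp : 0 ≤ p)
    (hq : 0 ≤ q) (hr : 0 ≤ r) (hs : 0 ≤ s)
    (hK2 : K ≤ 2 * (Real.sqrt (p * q) + Real.sqrt (r * s))) :
    Quasiconvex (W4 ψ p q r s) := by
  intro F₀ Ω hΩ hb ϑ hL h0
  obtain ⟨n, φ, κ, h1, h2, h3, h4⟩ := h (F₀ 0 0) (F₀ 1 1)
  have c1 := cl_sum fun i => (h1 i).cl
  have d1 := di_sum (φ := φ) (κ := κ) fun i => di_mono h_mono (h1 i)
  have q1 := qc_thr c1 d1 hp hq hr hs (h2.trans hK2) F₀ Ω hΩ hb ϑ hL h0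
  have e0 : W4 (fun x y => ∑ i, φ i x y) p q r s F₀ = W4 ψ p q r s F₀ := by
    simp only [W4]
    rw [h4]
  rw [e0] at q1
  obtain ⟨L, hL⟩ := hL
  have cψ := continuous_W4 (sep_contV h.sep) p q r s
  have cφ := continuous_W4 (ψ := fun x y => ∑ i, φ i x y) c1.continuous p q r s
  refine q1.trans (integral_mono (Q144.MD.int_grad cφ F₀ hb hL) (Q144.MD.int_grad cψ F₀ hb hL)
    fun x => ?_)
  simp only [W4]
  have := h3 ((F₀ + LinearMap.toMatrix' ((fderiv ℝ ϑ x : (Fin 2 → ℝ) →L[ℝ] (Fin 2 → ℝ)) :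
    (Fin 2 → ℝ) →ₗ[ℝ] (Fin 2 → ℝ))) 0 0) ((F₀ + LinearMap.toMatrix' ((fderiv ℝ ϑ x :
    (Fin 2 → ℝ) →L[ℝ] (Fin 2 → ℝ)) : (Fin 2 → ℝ) →ₗ[ℝ] (Fin 2 → ℝ))) 1 1)
  linarith

end Pool.Agent.H300.SM
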