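import Pool.Agent.H300.SM.Cont

/-!
# The sharp inequality from the discrete inequality
-/

set_option autoImplicit false

namespace Pool.Agent.H300.SM

open MeasureTheory Set Finset Filter Topology

/-- the squared norm of `∂_j ϑ_i` in `L²(Ω)` -/
noncomputable def Dr (ϑ : (Fin 2 → ℝ) → (Fin 2 → ℝ)) (Ω : Set (Fin 2 → ℝ)) (i j : Fin 2) : ℝ :=
  ∫ x in Ω, grad ϑ x i j ^ 2

theorem Dr_nonneg (ϑ : (Fin 2 → ℝ) → (Fin 2 → ℝ)) (Ω : Set (Fin 2 → ℝ)) (i j : Fin 2) :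
    0 ≤ Dr ϑ Ω i j := integral_nonneg fun _ => sq_nonneg _

/-- integrability of a continuous function of the diagonal of the gradient -/
theorem int_diag {ψ : ℝ → ℝ → ℝ} (hψ : Continuous (fun p : ℝ × ℝ => ψ p.1 p.2)) (a b : ℝ)
    {Ω : Set (Fin 2 → ℝ)} {ϑ : (Fin 2 → ℝ) → (Fin 2 → ℝ)} (hb : Bornology.IsBounded Ω)
    {L : NNReal} (hL : LipschitzWith L ϑ) :
    IntegrableOn (fun x => ψ (a + grad ϑ x 0 0) (b + grad ϑ x 1 1)) Ω := by
  have h2 : Continuous (fun F : Matrix (Fin 2) (Fin 2) ℝ => ψ (a + F 0 0) (b + F 1 1)) := by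
    have h3 : Continuous (fun F : Matrix (Fin 2) (Fin 2) ℝ => ((a + F 0 0, b + F 1 1) : ℝ × ℝ)) :=
      (continuous_const.add (continuous_id.matrix_elem 0 0)).prodMk
        (continuous_const.add (continuous_id.matrix_elem 1 1))
    exact hψ.comp h3
  have := Q144.MD.int_grad h2 0 hb hL
  simp only [zero_add] at this
  exact this

theorem int_sq {Ω : Set (Fin 2 → ℝ)} {ϑ : (Fin 2 → ℝ) → (Fin 2 → ℝ)}
    (hb : Bornology.IsBounded Ω) {L : NNReal} (hL : LipschitzWith L ϑ) (i j : Fin 2) :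
    IntegrableOn (fun x => grad ϑ x i j ^ 2) Ω := by
  have h2 : Continuous (fun F : Matrix (Fin 2) (Fin 2) ℝ => F i j ^ 2) :=
    (continuous_id.matrix_elem i j).pow 2
  have := Q144.MD.int_grad h2 0 hb hL
  simp only [zero_add] at this
  exact this

theorem int_lin {Ω : Set (Fin 2 → ℝ)} {ϑ : (Fin 2 → ℝ) → (Fin 2 → ℝ)}
    (hb : Bornology.IsBounded Ω) {L : NNReal} (hL : LipschitzWith L ϑ) (i j : Fin 2) :
    IntegrableOn (fun x => grad ϑ x i j) Ω := by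
  have h2 : Continuous (fun F : Matrix (Fin 2) (Fin 2) ℝ => F i j) :=
    continuous_id.matrix_elem i j
  have := Q144.MD.int_grad h2 0 hb hL
  simp only [zero_add] at this
  exact this

/-- the inequality with a weight -/
theorem weighted (hC : S_CONT) {ψ : ℝ → ℝ → ℝ} {K : ℝ}
    (hψ : Continuous (fun p : ℝ × ℝ => ψ p.1 p.2)) (h : DI ψ K) (a b : ℝ)
    {Ω : Set (Fin 2 → ℝ)} {ϑ : (Fin 2 → ℝ) → (Fin 2 → ℝ)} (ht : Test Ω ϑ) {t : ℝ} (ht0 : 0 < t) :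
    ψ a b * (volume Ω).toReal ≤
      (∫ x in Ω, ψ (a + grad ϑ x 0 0) (b + grad ϑ x 1 1))
        + K / 2 * (t ^ 2 * Dr ϑ Ω 0 1 + (t⁻¹) ^ 2 * Dr ϑ Ω 1 0) := by
  obtain ⟨hΩ, hb, ⟨L, hL⟩, h0⟩ := ht
  have hcont : Continuous (fun p : ℝ × ℝ × ℝ × ℝ =>
      ψ (a + p.1) (b + p.2.1) - ψ a b + K / 2 * (p.2.2.1 ^ 2 + p.2.2.2 ^ 2)) := by
    have h1 : Continuous (fun p : ℝ × ℝ × ℝ × ℝ => ψ (a + p.1) (b + p.2.1)) :=
      hψ.comp ((continuous_const.add continuous_fst).prodMk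
        (continuous_const.add (continuous_fst.comp continuous_snd)))
    fun_prop
  have h1 := hC _ hcont (by simp) (h a b) Ω ϑ ⟨hΩ, hb, ⟨L, hL⟩, h0⟩ t ht0
  have i1 := int_diag hψ a b hb hL
  have i2 := int_sq hb hL 0 1
  have i3 := int_sq hb hL 1 0
  have hfin : volume Ω ≠ ⊤ := hb.measure_lt_top.ne
  have e : ∫ x in Ω, (ψ (a + grad ϑ x 0 0) (b + grad ϑ x 1 1) - ψ a b
      + K / 2 * ((t * grad ϑ x 0 1) ^ 2 + (t⁻¹ * grad ϑ x 1 0) ^ 2))
      = (∫ x in Ω, ψ (a + grad ϑ x 0 0) (b + grad ϑ x 1 1)) - ψ a b * (volume Ω).toReal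
        + K / 2 * (t ^ 2 * Dr ϑ Ω 0 1 + (t⁻¹) ^ 2 * Dr ϑ Ω 1 0) := by
    have e1 : ∀ x, K / 2 * ((t * grad ϑ x 0 1) ^ 2 + (t⁻¹ * grad ϑ x 1 0) ^ 2)
        = K / 2 * t ^ 2 * grad ϑ x 0 1 ^ 2 + K / 2 * (t⁻¹) ^ 2 * grad ϑ x 1 0 ^ 2 := fun x => by ring
    simp only [e1]
    have m0 := i1.sub (integrableOn_const (C := ψ a b) hfin)
    have e2 := integral_add (μ := volume.restrict Ω) m0
      ((i2.const_mul (K / 2 * t ^ 2)).add (i3.const_mul (K / 2 * (t⁻¹) ^ 2)))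
    have e3 := integral_add (μ := volume.restrict Ω) (i2.const_mul (K / 2 * t ^ 2))
      (i3.const_mul (K / 2 * (t⁻¹) ^ 2))
    have e4 := integral_sub (μ := volume.restrict Ω) i1 (integrableOn_const (C := ψ a b) hfin)
    simp only [Pi.add_apply, Pi.sub_apply] at e2 e3 e4
    rw [e2, e3, e4, integral_const_mul, integral_const_mul, setIntegral_const, smul_eq_mul]
    simp only [Measure.real, Dr]
    ring
  simp only at h1
  rw [e] at h1
  linarith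

/-- **the sharp inequality** -/
theorem sharp (hC : S_CONT) {ψ : ℝ → ℝ → ℝ} {K : ℝ} (hK : 0 ≤ K)
    (hψ : Continuous (fun p : ℝ × ℝ => ψ p.1 p.2)) (h : DI ψ K) (a b : ℝ)
    {Ω : Set (Fin 2 → ℝ)} {ϑ : (Fin 2 → ℝ) → (Fin 2 → ℝ)} (ht : Test Ω ϑ) :
    ψ a b * (volume Ω).toReal ≤
      (∫ x in Ω, ψ (a + grad ϑ x 0 0) (b + grad ϑ x 1 1))
        + K * (Real.sqrt (Dr ϑ Ω 0 1) * Real.sqrt (Dr ϑ Ω 1 0)) := by
  have d01 := Dr_nonneg ϑ Ω 0 1
  have d10 := Dr_nonneg ϑ Ω 1 0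
  set c := Dr ϑ Ω 0 1
  set d := Dr ϑ Ω 1 0
  have key : ∀ ε : ℝ, 0 < ε → ψ a b * (volume Ω).toReal ≤
      (∫ x in Ω, ψ (a + grad ϑ x 0 0) (b + grad ϑ x 1 1))
        + K * (Real.sqrt (c + ε) * Real.sqrt (d + ε)) := by
    intro ε hε
    have pc : 0 < c + ε := by positivity
    have pd : 0 < d + ε := by positivity
    set P := Real.sqrt (c + ε) with hP
    set Q := Real.sqrt (d + ε) with hQ
    have hP0 : 0 < P := Real.sqrt_pos.2 pc
    have hQ0 : 0 < Q := Real.sqrt_pos.2 pd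
    have hP2 : P ^ 2 = c + ε := Real.sq_sqrt pc.le
    have hQ2 : Q ^ 2 = d + ε := Real.sq_sqrt pd.le
    set t := Real.sqrt (Q / P) with htd
    have ht0 : 0 < t := Real.sqrt_pos.2 (by positivity)
    have ht2 : t ^ 2 = Q / P := Real.sq_sqrt (by positivity)
    have hw := weighted hC hψ h a b ht ht0
    rw [inv_pow, ht2, inv_div] at hw
    refine hw.trans ?_
    have e1 : Q / P * c ≤ P * Q := by
      calc Q / P * c ≤ Q / P * P ^ 2 :=
            mul_le_mul_of_nonneg_left (by rw [hP2]; linarith) (by positivity)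
        _ = P * Q := by field_simp
    have e2 : P / Q * d ≤ P * Q := by
      calc P / Q * d ≤ P / Q * Q ^ 2 :=
            mul_le_mul_of_nonneg_left (by rw [hQ2]; linarith) (by positivity)
        _ = P * Q := by field_simp
    have e3 : K / 2 * (Q / P * c + P / Q * d) ≤ K * (P * Q) := by
      calc K / 2 * (Q / P * c + P / Q * d) ≤ K / 2 * (P * Q + P * Q) :=
            mul_le_mul_of_nonneg_left (add_le_add e1 e2) (by positivity)
        _ = K * (P * Q) := by ring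
    linarith
  have hcont : Continuous (fun ε : ℝ => (∫ x in Ω, ψ (a + grad ϑ x 0 0) (b + grad ϑ x 1 1))
        + K * (Real.sqrt (c + ε) * Real.sqrt (d + ε))) := by fun_prop
  have hlim := (hcont.tendsto 0).mono_left (nhdsWithin_le_nhds (s := Ioi 0))
  have := ge_of_tendsto hlim (by
    filter_upwards [self_mem_nhdsWithin] with ε hε
    exact key ε hε)
  simpa using this

/-- quadratic off-diagonal part, no diagonal part -/
theorem qc_off (hC : S_CONT) {ψ : ℝ → ℝ → ℝ} {K : ℝ} (hK : 0 ≤ K)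
    (hψ : Continuous (fun p : ℝ × ℝ => ψ p.1 p.2)) (h : DI ψ K) {r s : ℝ} (hr : 0 ≤ r) (hs : 0 ≤ s)
    (hKrs : K ≤ 2 * Real.sqrt (r * s)) :
    Pool.Agent.Q82.MD.Quasiconvex (Pool.Agent.Q246.MM.W4 ψ 0 0 r s) := by
  intro F₀ Ω hΩ hb ϑ hL' h0
  obtain ⟨L, hL⟩ := hL'
  have hs1 := sharp hC hK hψ h (F₀ 0 0) (F₀ 1 1) ⟨hΩ, hb, ⟨L, hL⟩, h0⟩
  have i1 := int_diag hψ (F₀ 0 0) (F₀ 1 1) hb hL
  have hfin : volume Ω ≠ ⊤ := hb.measure_lt_top.ne
  have z01 : ∫ x in Ω, grad ϑ x 0 1 = 0 :=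
    Pool.Agent.Helper188.Morrey.integral_grad hL hΩ hb h0 0 1
  have z10 : ∫ x in Ω, grad ϑ x 1 0 = 0 :=
    Pool.Agent.Helper188.Morrey.integral_grad hL hΩ hb h0 1 0
  have j01 := int_lin hb hL 0 1
  have j10 := int_lin hb hL 1 0
  have k01 := int_sq hb hL 0 1
  have k10 := int_sq hb hL 1 0
  have e : ∫ x in Ω, Pool.Agent.Q246.MM.W4 ψ 0 0 r s (F₀ + grad ϑ x)
      = (∫ x in Ω, ψ (F₀ 0 0 + grad ϑ x 0 0) (F₀ 1 1 + grad ϑ x 1 1))
        + (r * F₀ 0 1 ^ 2 + s * F₀ 1 0 ^ 2) * (volume Ω).toReal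
        + (r * Dr ϑ Ω 0 1 + s * Dr ϑ Ω 1 0) := by
    have e1 : ∀ x, Pool.Agent.Q246.MM.W4 ψ 0 0 r s (F₀ + grad ϑ x)
        = ψ (F₀ 0 0 + grad ϑ x 0 0) (F₀ 1 1 + grad ϑ x 1 1)
          + (r * F₀ 0 1 ^ 2 + s * F₀ 1 0 ^ 2)
          + (2 * r * F₀ 0 1) * grad ϑ x 0 1 + (2 * s * F₀ 1 0) * grad ϑ x 1 0
          + r * grad ϑ x 0 1 ^ 2 + s * grad ϑ x 1 0 ^ 2 := by
      intro x
      simp only [Pool.Agent.Q246.MM.W4, Matrix.add_apply]
      ring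
    simp only [e1]
    have m1 := i1.add (integrableOn_const (C := r * F₀ 0 1 ^ 2 + s * F₀ 1 0 ^ 2) hfin)
    have m2 := m1.add (j01.const_mul (2 * r * F₀ 0 1))
    have m3 := m2.add (j10.const_mul (2 * s * F₀ 1 0))
    have m4 := m3.add (k01.const_mul r)
    have e2 := integral_add (μ := volume.restrict Ω) m4 (k10.const_mul s)
    have e3 := integral_add (μ := volume.restrict Ω) m3 (k01.const_mul r)
    have e4 := integral_add (μ := volume.restrict Ω) m2 (j10.const_mul (2 * s * F₀ 1 0))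
    have e5 := integral_add (μ := volume.restrict Ω) m1 (j01.const_mul (2 * r * F₀ 0 1))
    have e6 := integral_add (μ := volume.restrict Ω) i1
      (integrableOn_const (C := r * F₀ 0 1 ^ 2 + s * F₀ 1 0 ^ 2) hfin)
    simp only [Pi.add_apply] at e2 e3 e4 e5 e6
    rw [e2, e3, e4, e5, e6, integral_const_mul, integral_const_mul, integral_const_mul,
      integral_const_mul, z01, z10, setIntegral_const, smul_eq_mul]
    simp only [Measure.real, Dr]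
    ring
  have e0 : Pool.Agent.Q246.MM.W4 ψ 0 0 r s F₀ = ψ (F₀ 0 0) (F₀ 1 1)
      + (r * F₀ 0 1 ^ 2 + s * F₀ 1 0 ^ 2) := by
    simp only [Pool.Agent.Q246.MM.W4]
    ring
  have d01 := Dr_nonneg ϑ Ω 0 1
  have d10 := Dr_nonneg ϑ Ω 1 0
  have key : K * (Real.sqrt (Dr ϑ Ω 0 1) * Real.sqrt (Dr ϑ Ω 1 0))
      ≤ r * Dr ϑ Ω 0 1 + s * Dr ϑ Ω 1 0 := by
    set P := Real.sqrt (Dr ϑ Ω 0 1) with hP
    set Q := Real.sqrt (Dr ϑ Ω 1 0) with hQ
    have hP0 : 0 ≤ P := Real.sqrt_nonneg _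
    have hQ0 : 0 ≤ Q := Real.sqrt_nonneg _
    have hP2 : P ^ 2 = Dr ϑ Ω 0 1 := Real.sq_sqrt d01
    have hQ2 : Q ^ 2 = Dr ϑ Ω 1 0 := Real.sq_sqrt d10
    rw [← hP2, ← hQ2]
    set α := Real.sqrt r with hα
    set β := Real.sqrt s with hβ
    have hα2 : α ^ 2 = r := Real.sq_sqrt hr
    have hβ2 : β ^ 2 = s := Real.sq_sqrt hs
    have hrs : Real.sqrt (r * s) = α * β := Real.sqrt_mul hr _
    rw [hrs] at hKrs
    calc K * (P * Q) ≤ 2 * (α * β) * (P * Q) :=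
          mul_le_mul_of_nonneg_right hKrs (by positivity)
      _ ≤ α ^ 2 * P ^ 2 + β ^ 2 * Q ^ 2 := by nlinarith [sq_nonneg (α * P - β * Q)]
      _ = r * P ^ 2 + s * Q ^ 2 := by rw [hα2, hβ2]
  refine le_trans ?_ (le_of_eq e.symm)
  rw [e0, add_mul]
  linarith

end Pool.Agent.H300.SM
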