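import Mathlib

/-!
# Sharp Müller inequality: statements
-/

set_option autoImplicit false

namespace Pool.Agent.H300.SM

open MeasureTheory Set Finset

/-! ### discrete part -/

/-- the two diagonal and the two off-diagonal differences of the arrays `u`, `v` -/
def dX (u : ℕ → ℕ → ℝ) (i j : ℕ) : ℝ := u (i + 1) j - u i j
def dY (v : ℕ → ℕ → ℝ) (i j : ℕ) : ℝ := v i (j + 1) - v i j
def dZ (u : ℕ → ℕ → ℝ) (i j : ℕ) : ℝ := u (i + 1) (j + 1) - u (i + 1) j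
def dW (v : ℕ → ℕ → ℝ) (i j : ℕ) : ℝ := v (i + 1) (j + 1) - v i (j + 1)

/-- the array vanishes off the interior of the grid `[0, n] × [0, m]` -/
def Zb (n m : ℕ) (u : ℕ → ℕ → ℝ) : Prop :=
  ∀ i j, (i = 0 ∨ n ≤ i ∨ j = 0 ∨ m ≤ j) → u i j = 0

/-- discrete quasiconvexity at the origin -/
def Disc (G : ℝ × ℝ × ℝ × ℝ → ℝ) : Prop :=
  ∀ (n m : ℕ) (u v : ℕ → ℕ → ℝ), Zb n m u → Zb n m v →
    0 ≤ ∑ i ∈ range n, ∑ j ∈ range m, G (dX u i j, dY v i j, dZ u i j, dW v i j)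

/-- the quadrant function with corner `(-a, -b)`, normalised at the origin -/
noncomputable def om (a b x y : ℝ) : ℝ :=
  max (x + a) 0 * max (y + b) 0 - a * b - b * x - a * y

/-- PROJ: the basic inequality -/
def S_PROJ : Prop := ∀ a b : ℝ, 0 ≤ a → 0 ≤ b →
  Disc (fun p => om a b p.1 p.2.1 + 1 / 4 * (p.2.2.1 - p.2.2.2) ^ 2)

/-- mixed second difference of a function on the integer grid -/
def cc (F : ℤ → ℤ → ℝ) (i j : ℤ) : ℝ :=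
  F (i + 1) (j + 1) - F (i + 1) j - F i (j + 1) + F i j

/-- SUP: support of a discrete function of the monotone class by a mixture of quadrant functions -/
def S_SUP : Prop := ∀ (F : ℤ → ℤ → ℝ) (T : ℕ),
  F 0 0 = 0 → F 1 0 = 0 → F 0 1 = 0 →
  (∀ i j, 2 * F i j ≤ F (i + 1) j + F (i - 1) j) →
  (∀ i j, 2 * F i j ≤ F i (j + 1) + F i (j - 1)) →
  (∀ i j, 0 ≤ cc F i j) → (∀ i j, cc F i j ≤ cc F (i + 1) j) →
  (∀ i j, cc F i j ≤ cc F i (j + 1)) →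
  ∃ α β : ℝ → ℕ, Antitone α ∧ Antitone β ∧ (∀ l, α l ≤ T) ∧ (∀ l, β l ≤ T) ∧
    ∀ i j : ℤ, -(T : ℤ) ≤ i → -(T : ℤ) ≤ j →
      (∫ l in (0 : ℝ)..cc F 0 0, om (α l) (β l) i j) ≤ F i j

/-- separately convex functions -/
def SepConvex (ψ : ℝ → ℝ → ℝ) : Prop :=
  (∀ y, ConvexOn ℝ univ (fun x => ψ x y)) ∧ ∀ x, ConvexOn ℝ univ (ψ x)

/-- the mixed differences are nonnegative and bounded by `κ`, nondecreasing in each variable -/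
def PP (ψ : ℝ → ℝ → ℝ) (κ : ℝ) : Prop :=
  (∀ x x' y y', x ≤ x' → y ≤ y' → 0 ≤ ψ x' y' - ψ x' y - ψ x y' + ψ x y ∧
    ψ x' y' - ψ x' y - ψ x y' + ψ x y ≤ κ * (x' - x) * (y' - y)) ∧
  (∀ y y', y ≤ y' → ConvexOn ℝ univ (fun x => ψ x y' - ψ x y)) ∧
  (∀ x x', x ≤ x' → ConvexOn ℝ univ (fun y => ψ x' y - ψ x y))

/-- MONO: the discrete inequality for the monotone class -/
def S_MONO : Prop := ∀ (ψ : ℝ → ℝ → ℝ) (κ : ℝ), SepConvex ψ → PP ψ κ → ∀ A B : ℝ,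
  Disc (fun p => ψ (A + p.1) (B + p.2.1) - ψ A B + κ / 4 * (p.2.2.1 - p.2.2.2) ^ 2)

/-! ### passage to the continuum -/

/-- the gradient of a map of the plane, `grad ϑ x i j = ∂_j ϑ_i (x)` -/
noncomputable def grad (ϑ : (Fin 2 → ℝ) → (Fin 2 → ℝ)) (x : Fin 2 → ℝ) :
    Matrix (Fin 2) (Fin 2) ℝ :=
  LinearMap.toMatrix' ((fderiv ℝ ϑ x : (Fin 2 → ℝ) →L[ℝ] (Fin 2 → ℝ)) :
    (Fin 2 → ℝ) →ₗ[ℝ] (Fin 2 → ℝ))

/-- `Ω` is open and bounded, `ϑ` is Lipschitz and vanishes off `Ω` -/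
def Test (Ω : Set (Fin 2 → ℝ)) (ϑ : (Fin 2 → ℝ) → (Fin 2 → ℝ)) : Prop :=
  IsOpen Ω ∧ Bornology.IsBounded Ω ∧ (∃ K, LipschitzWith K ϑ) ∧ ∀ x, x ∉ Ω → ϑ x = 0

/-- difference quotients with steps `h`, `k` -/
noncomputable def dq (ϑ : (Fin 2 → ℝ) → (Fin 2 → ℝ)) (h k : ℝ) (x : Fin 2 → ℝ) :
    ℝ × ℝ × ℝ × ℝ :=
  ((ϑ (x + ![h, 0]) 0 - ϑ x 0) / h, (ϑ (x + ![0, k]) 1 - ϑ x 1) / k,
    (ϑ (x + ![h, k]) 0 - ϑ (x + ![h, 0]) 0) / h, (ϑ (x + ![h, k]) 1 - ϑ (x + ![0, k]) 1) / k)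

/-- DQ: difference quotients converge to the gradient (Rademacher and dominated convergence) -/
def S_DQ : Prop := ∀ (G : ℝ × ℝ × ℝ × ℝ → ℝ), Continuous G → G 0 = 0 →
  ∀ (Ω : Set (Fin 2 → ℝ)) (ϑ : (Fin 2 → ℝ) → (Fin 2 → ℝ)), Test Ω ϑ → ∀ t : ℝ, 0 < t →
  (∀ h : ℝ, 0 < h → h < 1 → 0 ≤ ∫ x, G (dq ϑ h (t * h) x)) →
  0 ≤ ∫ x in Ω, G (grad ϑ x 0 0, grad ϑ x 1 1, t * grad ϑ x 0 1, t⁻¹ * grad ϑ x 1 0)

/-- TILE: if the sums over all shifted grids are nonnegative, so is the integral -/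
def S_TILE : Prop := ∀ (g : (Fin 2 → ℝ) → ℝ) (R h k : ℝ), Continuous g → 0 < R → 0 < h → 0 < k →
  (∀ x, (R < |x 0| ∨ R < |x 1|) → g x = 0) →
  (∀ (a : Fin 2 → ℝ) (n m : ℕ), a 0 ≤ -R → a 1 ≤ -R → R ≤ a 0 + n * h → R ≤ a 1 + m * k →
    0 ≤ ∑ i ∈ range n, ∑ j ∈ range m, g (a + ![i * h, j * k])) →
  0 ≤ ∫ x, g x

/-- CONT: passage to the continuum -/
def S_CONT : Prop := ∀ (G : ℝ × ℝ × ℝ × ℝ → ℝ), Continuous G → G 0 = 0 → Disc G →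
  ∀ (Ω : Set (Fin 2 → ℝ)) (ϑ : (Fin 2 → ℝ) → (Fin 2 → ℝ)), Test Ω ϑ → ∀ t : ℝ, 0 < t →
  0 ≤ ∫ x in Ω, G (grad ϑ x 0 0, grad ϑ x 1 1, t * grad ϑ x 0 1, t⁻¹ * grad ϑ x 1 0)

end Pool.Agent.H300.SM
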